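import Pool.Agent.U199.ZS.Q

/-!
# Moving in an interval, and changing the sign of the real ordinate
-/

set_option autoImplicit false
set_option linter.unusedSectionVars false
set_option linter.unusedVariables false

open WeierstrassCurve Filter Topology Pool.Agent.Y720.MZ Pool.Agent.Y718.X

namespace Pool.Agent.U199.ZS

variable {K : Type} [Field K] [DecidableEq K]

/-- the real point with parameter `t` -/
lemma real_pt {W q₁ q₂ q₃ q₄ t : ℝ} (hW : 0 < W) (ht : t ≠ 0) (hQ : 0 ≤ Qr W q₁ q₂ q₃ q₄ t)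
    (hN : 4 * W ^ 2 * (Xr W q₁ q₂ q₃ q₄ t + q₂) - q₁ ^ 2 ≠ 0) :
    Df W q₁ q₃ (Xr W q₁ q₂ q₃ q₄ t) (Yr W q₁ q₂ q₃ q₄ t) ≠ 0 ∧
    tf W q₁ q₂ q₃ (Xr W q₁ q₂ q₃ q₄ t) (Yr W q₁ q₂ q₃ q₄ t) = t ∧
    Yf W q₁ q₂ q₃ (Xr W q₁ q₂ q₃ q₄ t) (Yr W q₁ q₂ q₃ q₄ t) =
      Real.sqrt (Qr W q₁ q₂ q₃ q₄ t) := by
  have hYd : 2 * W * Yr W q₁ q₂ q₃ q₄ t - q₁ * Xr W q₁ q₂ q₃ q₄ t - 2 * W ^ 2 * q₃ =
      (4 * W ^ 2 * (Xr W q₁ q₂ q₃ q₄ t + q₂) - q₁ ^ 2) / t := by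
    rw [Yr]
    field_simp
    ring
  have h1 : tf W q₁ q₂ q₃ (Xr W q₁ q₂ q₃ q₄ t) (Yr W q₁ q₂ q₃ q₄ t) = t := by
    rw [tf, Nf, Df, hYd]
    field_simp
  refine ⟨?_, h1, ?_⟩
  · rw [Df, hYd]
    exact div_ne_zero hN ht
  · rw [Yf, h1, Xr]
    field_simp
    ring

/-- **Density, away from one parameter.** -/
theorem mix_main (σ : K →+* ℝ) {ι : Type} [Finite ι] {p : ι → ℕ} [∀ i, Fact (p i).Prime]
    (τ : ∀ i, K →+* ℚ_[p i]) {w q₁ q₂ q₃ q₄ : K} (hw0 : w ≠ 0)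
    (hD : dsc q₂ (rb w q₁ q₃ q₄) (rc w q₁ q₂ q₃ q₄) ≠ 0)
    (hS : ∀ h, ∀ n : ℕ, n ≠ 0 → n • (.some (xs w q₁ q₂) (ys w q₁ q₂ q₃) h :
      Pt q₂ (rb w q₁ q₃ q₄) (rc w q₁ q₂ q₃ q₄)) ≠ 0) (hpos : 0 < σ w) {t : ℝ} (ht : t ≠ 0)
    (hseg : ∀ s : ℝ, 0 ≤ s → s ≤ 1 → 0 < Qr (σ w) (σ q₁) (σ q₂) (σ q₃) (σ q₄) (s * t))
    (hN : 4 * σ w ^ 2 * (Xr (σ w) (σ q₁) (σ q₂) (σ q₃) (σ q₄) t + σ q₂) - σ q₁ ^ 2 ≠ 0)
    {ε : ℝ} (hε : 0 < ε) : ∃ r Y : K, |σ r - t| < ε ∧ 0 < σ Y ∧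
      Y ^ 2 = w ^ 2 + q₁ * r + q₂ * r ^ 2 + q₃ * r ^ 3 + q₄ * r ^ 4 ∧ Cl τ ε r Y w := by
  have hch : CharZero K := σ.charZero
  have e1 : σ (rb w q₁ q₃ q₄) = rb (σ w) (σ q₁) (σ q₃) (σ q₄) := by simp [rb, map_ofNat]
  have e2 : σ (rc w q₁ q₂ q₃ q₄) = rc (σ w) (σ q₁) (σ q₂) (σ q₃) (σ q₄) := by simp [rc, map_ofNat]
  have hDr : dsc (σ q₂) (rb (σ w) (σ q₁) (σ q₃) (σ q₄)) (rc (σ w) (σ q₁) (σ q₂) (σ q₃) (σ q₄)) ≠ 0 := by
    rw [← e1, ← e2, ← map_dsc]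
    exact (map_ne_zero σ).2 hD
  have hQ : 0 < Qr (σ w) (σ q₁) (σ q₂) (σ q₃) (σ q₄) t := by
    have := hseg 1 zero_le_one le_rfl
    rwa [one_mul] at this
  obtain ⟨h1, h2, h3⟩ := real_pt hpos ht hQ.le hN
  have hs := Real.sqrt_pos.2 hQ
  obtain ⟨x, y, hxy, -, hd, a1, a2, a3⟩ := mix σ τ hw0 hD hS
    (ξ := Xr (σ w) (σ q₁) (σ q₂) (σ q₃) (σ q₄) t) (η := Yr (σ w) (σ q₁) (σ q₂) (σ q₃) (σ q₄) t)
    (fun x hx => by rw [e1, e2]; exact Xr_right hpos ht hseg hDr x hx)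
    (by rw [e1, e2]; exact inv_curve hpos.ne' ht hQ.le) h1 (B := ∅) Set.finite_empty (by simp)
    (lt_min hε hs)
  rw [h2] at a1
  rw [h3] at a2
  refine ⟨_, _, a1.trans_le (min_le_left _ _), ?_, Yf_eqn hw0 hxy hd, fun i =>
    ⟨(a3 i).1.trans_le (min_le_left _ _), (a3 i).2.trans_le (min_le_left _ _)⟩⟩
  have := (abs_lt.1 (a2.trans_le (min_le_right _ _))).1
  linarith

/-- **Density.** -/
theorem mix_pos (σ : K →+* ℝ) {ι : Type} [Finite ι] {p : ι → ℕ} [∀ i, Fact (p i).Prime]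
    (τ : ∀ i, K →+* ℚ_[p i]) {w q₁ q₂ q₃ q₄ : K} (hw0 : w ≠ 0)
    (hD : dsc q₂ (rb w q₁ q₃ q₄) (rc w q₁ q₂ q₃ q₄) ≠ 0)
    (hS : ∀ h, ∀ n : ℕ, n ≠ 0 → n • (.some (xs w q₁ q₂) (ys w q₁ q₂ q₃) h :
      Pt q₂ (rb w q₁ q₃ q₄) (rc w q₁ q₂ q₃ q₄)) ≠ 0) (hpos : 0 < σ w) {t : ℝ}
    (hseg : ∀ s : ℝ, 0 ≤ s → s ≤ 1 → 0 < Qr (σ w) (σ q₁) (σ q₂) (σ q₃) (σ q₄) (s * t))
    {ε : ℝ} (hε : 0 < ε) : ∃ r Y : K, |σ r - t| < ε ∧ 0 < σ Y ∧
      Y ^ 2 = w ^ 2 + q₁ * r + q₂ * r ^ 2 + q₃ * r ^ 3 + q₄ * r ^ 4 ∧ Cl τ ε r Y w := by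
  have hch : CharZero K := σ.charZero
  by_cases ht : t = 0
  · subst ht
    refine ⟨0, w, by simpa using hε, hpos, by ring, fun i => ?_⟩
    simpa using hε
  have hns := ns_of_dsc hD (s_eqn (q₁ := q₁) (q₂ := q₂) (q₃ := q₃) (q₄ := q₄) hw0)
  have hys : ys w q₁ q₂ q₃ ≠ 0 := by
    intro h0
    apply hS hns 2 two_ne_zero
    rw [two_smul]
    exact dbl_zero hns (by rw [h0, mul_zero])
  -- at most one exceptional parameter
  have hexc : ∀ t : ℝ, t ≠ 0 → 0 ≤ Qr (σ w) (σ q₁) (σ q₂) (σ q₃) (σ q₄) t →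
      4 * σ w ^ 2 * (Xr (σ w) (σ q₁) (σ q₂) (σ q₃) (σ q₄) t + σ q₂) - σ q₁ ^ 2 = 0 →
      (σ (xs w q₁ q₂) ^ 2 - 4 * σ w ^ 2 * σ q₄) * t = 4 * σ w * σ (ys w q₁ q₂ q₃) := by
    intro t ht hQ h0
    have hs := Real.sq_sqrt hQ
    have hX : Xr (σ w) (σ q₁) (σ q₂) (σ q₃) (σ q₄) t = σ (xs w q₁ q₂) := by
      have e : σ (xs w q₁ q₂) = σ q₁ ^ 2 / (4 * σ w ^ 2) - σ q₂ := by simp [xs, map_ofNat]
      rw [e]
      have := hpos.ne'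
      field_simp
      linear_combination h0
    have hy : 2 * σ w * σ (ys w q₁ q₂ q₃) = σ q₁ * σ (xs w q₁ q₂) + 2 * σ w ^ 2 * σ q₃ := by
      have := hpos.ne'
      have e : σ (ys w q₁ q₂ q₃) = (σ q₁ * σ (xs w q₁ q₂) + 2 * σ w ^ 2 * σ q₃) / (2 * σ w) := by
        simp [ys, map_ofNat]
      rw [e]
      field_simp
    have hx4 : 4 * σ w ^ 2 * (σ (xs w q₁ q₂) + σ q₂) = σ q₁ ^ 2 := by
      have e : σ (xs w q₁ q₂) = σ q₁ ^ 2 / (4 * σ w ^ 2) - σ q₂ := by simp [xs, map_ofNat]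
      rw [e]
      have := hpos.ne'
      field_simp
      ring
    rw [Xr, div_eq_iff (pow_ne_zero 2 ht)] at hX
    generalize Real.sqrt (Qr (σ w) (σ q₁) (σ q₂) (σ q₃) (σ q₄) t) = s at hs hX
    unfold Qr at hs
    have h3 : t ^ 3 ≠ 0 := pow_ne_zero 3 ht
    apply mul_left_cancel₀ h3
    generalize σ (xs w q₁ q₂) = A at hX hy hx4
    generalize σ (ys w q₁ q₂ q₃) = B at hy
    have hX' : 2 * σ w * s = A * t ^ 2 - σ q₁ * t - 2 * σ w ^ 2 := by linear_combination hX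
    linear_combination (-(2 * σ w * s) - (A * t ^ 2 - σ q₁ * t - 2 * σ w ^ 2)) * hX' +
      4 * σ w ^ 2 * hs + t ^ 2 * hx4 - 2 * t ^ 3 * hy
  -- choose a good parameter
  obtain ⟨s, hs0, hs1, hst, hsN⟩ : ∃ s : ℝ, 0 < s ∧ s ≤ 1 ∧ |s * t - t| < ε / 2 ∧
      4 * σ w ^ 2 * (Xr (σ w) (σ q₁) (σ q₂) (σ q₃) (σ q₄) (s * t) + σ q₂) - σ q₁ ^ 2 ≠ 0 := by
    set δ : ℝ := min (1 / 2) (ε / (4 * (|t| + 1))) with hδ
    have htp : 0 < |t| := abs_pos.2 ht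
    have hδ0 : 0 < δ := lt_min (by norm_num) (by positivity)
    have hδ1 : δ ≤ 1 / 2 := min_le_left _ _
    have hδ2 : δ * |t| < ε / 2 := by
      have h5 : δ ≤ ε / (4 * (|t| + 1)) := min_le_right _ _
      calc δ * |t| ≤ ε / (4 * (|t| + 1)) * |t| := by gcongr
        _ = ε / 4 * (|t| / (|t| + 1)) := by field_simp
        _ ≤ ε / 4 * 1 := by
            gcongr
            rw [div_le_one (by positivity)]
            linarith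
        _ < ε / 2 := by linarith
    by_contra hcon
    push Not at hcon
    have hstep : ∀ μ : ℝ, 0 ≤ μ → μ ≤ δ → (σ (xs w q₁ q₂) ^ 2 - 4 * σ w ^ 2 * σ q₄) *
        ((1 - μ) * t) = 4 * σ w * σ (ys w q₁ q₂ q₃) := by
      intro μ hμ0 hμ
      have h1 : |(1 - μ) * t - t| < ε / 2 := by
        have : (1 - μ) * t - t = -(μ * t) := by ring
        rw [this, abs_neg, abs_mul, abs_of_nonneg hμ0]
        exact (mul_le_mul_of_nonneg_right hμ htp.le).trans_lt hδ2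
      have h2 := hcon (1 - μ) (by linarith) (by linarith) h1
      exact hexc _ (mul_ne_zero (by linarith) ht) (hseg _ (by linarith) (by linarith)).le h2
    have h5 := hstep 0 le_rfl hδ0.le
    have h6 := hstep δ hδ0.le le_rfl
    have h7 : (σ (xs w q₁ q₂) ^ 2 - 4 * σ w ^ 2 * σ q₄) * (δ * t) = 0 := by
      linear_combination h5 - h6
    rcases mul_eq_zero.1 h7 with h8 | h8
    · rw [h8, zero_mul] at h5
      have : 4 * σ w * σ (ys w q₁ q₂ q₃) ≠ 0 :=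
        mul_ne_zero (mul_ne_zero (by norm_num) hpos.ne') ((map_ne_zero σ).2 hys)
      exact this h5.symm
    · exact (mul_ne_zero hδ0.ne' ht) h8
  obtain ⟨r, Y, hrt, hY, hYQ, hcl⟩ := mix_main σ τ hw0 hD hS hpos
    (mul_ne_zero hs0.ne' ht) (fun s' h0 h1 => by
      rw [← mul_assoc]
      exact hseg (s' * s) (by positivity) (mul_le_one₀ h1 hs0.le hs1)) hsN (half_pos hε)
  refine ⟨r, Y, ?_, hY, hYQ, fun i => ⟨(hcl i).1.trans (half_lt_self hε),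
    (hcl i).2.trans (half_lt_self hε)⟩⟩
  have := abs_sub_le (σ r) (s * t) t
  linarith

/-- the resolvent cubic is positive to the right of the class of `P - ι P`, if there is a real root -/
lemma xs_right {W q₁ q₂ q₃ q₄ t : ℝ} (hW : W ≠ 0) (ht : Qr W q₁ q₂ q₃ q₄ t = 0)
    (hD : dsc q₂ (rb W q₁ q₃ q₄) (rc W q₁ q₂ q₃ q₄) ≠ 0) (x : ℝ)
    (hx : q₁ ^ 2 / (4 * W ^ 2) - q₂ < x) : 0 < gg q₂ (rb W q₁ q₃ q₄) (rc W q₁ q₂ q₃ q₄) x := by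
  set g := gg q₂ (rb W q₁ q₃ q₄) (rc W q₁ q₂ q₃ q₄) with hg
  have ht0 : t ≠ 0 := by
    rintro rfl
    simp [Qr] at ht
    exact hW ht
  have hnn : ∀ x, q₁ ^ 2 / (4 * W ^ 2) - q₂ < x → 0 ≤ g x := by
    intro x hx
    by_contra hneg
    push Not at hneg
    set A : ℝ := q₁ ^ 2 / (4 * W ^ 2) - q₂ - x with hA
    set B : ℝ := -q₁ * x / (2 * W ^ 2) - q₃ with hB
    set C : ℝ := x ^ 2 / (4 * W ^ 2) - q₄ with hC
    have hA0 : A < 0 := by rw [hA]; linarith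
    have hdisc : (B ^ 2 - 4 * A * C) * W ^ 2 = g x := by
      rw [hA, hB, hC, hg]
      unfold gg rb rc
      field_simp
      ring
    have hd : B ^ 2 - 4 * A * C < 0 := by
      have hW2 : 0 < W ^ 2 := by positivity
      by_contra h
      push Not at h
      nlinarith
    have hsq : (-W - q₁ / (2 * W) * t + x / (2 * W) * t ^ 2) ^ 2 = t ^ 2 * (A + B * t + C * t ^ 2) := by
      have e1 : (-W - q₁ / (2 * W) * t + x / (2 * W) * t ^ 2) ^ 2 - Qr W q₁ q₂ q₃ q₄ t =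
          t ^ 2 * (A + B * t + C * t ^ 2) := by
        rw [hA, hB, hC]
        unfold Qr
        field_simp
        ring
      rw [ht, sub_zero] at e1
      exact e1
    have h1 : 0 ≤ A + B * t + C * t ^ 2 := by
      by_contra h
      push Not at h
      have h2 : 0 < t ^ 2 := by positivity
      nlinarith [sq_nonneg (-W - q₁ / (2 * W) * t + x / (2 * W) * t ^ 2)]
    -- `4 A (A + B t + C t²) = (2 A + B t)² - (B² - 4 A C) t²`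
    have h2 : 4 * A * (A + B * t + C * t ^ 2) = (2 * A + B * t) ^ 2 - (B ^ 2 - 4 * A * C) * t ^ 2 := by
      ring
    have h3 : 0 < t ^ 2 := by positivity
    nlinarith [sq_nonneg (2 * A + B * t), mul_pos_of_neg_of_neg hd (neg_lt_zero.2 h3)]
  rcases (hnn x hx).lt_or_eq with h | h
  · exact h
  · exfalso
    have hmin : IsLocalMin g x := by
      filter_upwards [Ioi_mem_nhds hx] with z hz
      rw [← h]
      exact hnn z hz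
    have hder : HasDerivAt g (3 * x ^ 2 + 2 * q₂ * x + rb W q₁ q₃ q₄) x := by
      have a1 := hasDerivAt_pow 3 x
      have a2 := (hasDerivAt_pow 2 x).const_mul q₂
      have a3 := (hasDerivAt_id x).const_mul (rb W q₁ q₃ q₄)
      have h1 := ((a1.add a2).add a3).add_const (rc W q₁ q₂ q₃ q₄)
      have h2 : HasDerivAt g _ x := h1
      refine h2.congr_deriv ?_
      norm_num
      ring
    have h0 := hmin.hasDerivAt_eq_zero hder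
    apply hD
    rw [dsc_bezout _ _ _ x, h0, mul_zero, add_zero]
    have : x ^ 3 + q₂ * x ^ 2 + rb W q₁ q₃ q₄ * x + rc W q₁ q₂ q₃ q₄ = 0 := h.symm
    rw [this, mul_zero]

end Pool.Agent.U199.ZS
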