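import Pool.Agent.U199.ZS.L

/-!
# Boxes, and changing the sheet
-/

set_option autoImplicit false
set_option linter.unusedSectionVars false
set_option linter.unusedVariables false

open MvPolynomial Pool.Agent.Y720.MZ

namespace Pool.Agent.U199.ZS

open Pool.Agent.Q35.ZC
open Pool.Agent.Q35.TT (SmoothN TorN Tor TorT lc af bq tay ND S_TWS S_SPE S_TBN pq cy gd)
open Pool.Agent.U199.ZR (Reg fin_reg io_tw Start)

section box

variable {K : Type} [Field K] [NumberField K] {ι : Type} [Finite ι] {p : ι → ℕ}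
  [hp : ∀ i, Fact (p i).Prime]

/-- not torsion in the direction `i`, and the line in the direction `i` is regular -/
def St (f : MvPolynomial (Fin 2) K) (z : Fin 2 → K) (i j : Fin 2) : Prop :=
  i ≠ j ∧ ¬ TorN f z i ∧ Reg f z i j

theorem St.start {f : MvPolynomial (Fin 2) K} {z : Fin 2 → K} {i j : Fin 2} (h : St f z i j) :
    Start f z := ⟨i, j, h⟩

/-- **One move.** -/
theorem turn (h2 : S_TWS) (h3 : S_SPE) (h4 : S_TBN) (σ : K →+* ℝ) (τ : ∀ v, K →+* ℚ_[p v])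
    {f : MvPolynomial (Fin 2) K} (hf : ∀ j, f.degreeOf j ≤ 4) (hs : SmoothN f) {e : K} (he : e ≠ 0)
    {x : Fin 2 → ℝ} {δ : ℝ}
    (hbox : ∀ b : Fin 2 → ℝ, (∀ k, |b k - x k| < δ) → 0 < eval b (map σ (C e * f)))
    {z : Fin 2 → K} {w : K} (hw : w ≠ 0) (hon : w ^ 2 = eval z (C e * f)) {i j : Fin 2}
    (hz : St f z i j) (hzx : ∀ k, |σ (z k) - x k| < δ) {y : ℝ} (hy : |y - x i| < δ) {B : Set K}
    (hB : B.Finite) {ε : ℝ} (hε : 0 < ε) {ε' : ℝ} (hε' : 0 < ε') :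
    ∃ r Z : K, |σ r - y| < ε ∧ r ∉ B ∧ 0 < σ Z * σ w ∧
      Z ^ 2 = eval (Function.update z i r) (C e * f) ∧ St f (Function.update z i r) j i ∧
      (∀ k, |σ (Function.update z i r k) - x k| < δ) ∧ Nr τ ε' z w (Function.update z i r) Z := by
  classical
  have hd : ∀ j, (C e * f).degreeOf j ≤ 4 := fun j => (degreeOf_C_mul_le f j e).trans (hf j)
  obtain ⟨hij, hT, hR⟩ := hz
  have hF1 : (({t : K | TorN f (Function.update z i t) j} ∪
      {c : K | ∃ x : Fin 2 → K, x i = c ∧ ¬ Reg f x j i}) ∪ B).Finite :=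
    ((h4 K 2 f hf z i j hij hR.2).union (fin_reg h3 hf hs j i (Ne.symm hij))).union hB
  obtain ⟨r, Z, a1, a2, a3, a4, a5⟩ := line_target σ τ hd hw hon (io_tw h2 hf he hT hR.1)
    (x := x i) (hzx i) (fun t ht => hbox _ fun k => by
      by_cases h : k = i
      · subst h
        rw [Function.update_self]
        exact ht
      · rw [Function.update_of_ne h]
        exact hzx k) hy hF1 (lt_min hε (show 0 < δ - |y - x i| by linarith)) hε'
  rw [Set.mem_union, Set.mem_union, not_or, not_or] at a2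
  refine ⟨r, Z, a1.trans_le (min_le_left _ _), a2.2, a3, a4, ⟨Ne.symm hij, a2.1.1, ?_⟩, ?_, a5⟩
  · by_contra hcon
    exact a2.1.2 ⟨_, Function.update_self _ _ _, hcon⟩
  · intro k
    by_cases h : k = i
    · subst h
      rw [Function.update_self]
      have b1 := a1.trans_le (min_le_right _ _)
      have b2 := abs_add_le (σ r - y) (y - x k)
      have b3 : σ r - y + (y - x k) = σ r - x k := by ring
      rw [b3] at b2
      linarith
    · rw [Function.update_of_ne h]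
      exact hzx k

theorem ne_of_sign {σ : K →+* ℝ} {w Z : K} (h : 0 < σ Z * σ w) : Z ≠ 0 := by
  rintro rfl
  rw [map_zero, zero_mul] at h
  exact lt_irrefl _ h

theorem sign_trans {a b c : ℝ} (h : 0 < b * a) (h' : 0 < c * b) : 0 < c * a := by
  have h1 : 0 < (c * a) * b ^ 2 := by
    have := mul_pos h h'
    nlinarith
  exact (pos_iff_pos_of_mul_pos h1).2 (by
    rcases eq_or_ne b 0 with rfl | hb
    · simp at h
    · positivity)

/-- **Boxes.** -/
theorem box (h2 : S_TWS) (h3 : S_SPE) (h4 : S_TBN) (σ : K →+* ℝ) (τ : ∀ v, K →+* ℚ_[p v])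
    {f : MvPolynomial (Fin 2) K} (hf : ∀ j, f.degreeOf j ≤ 4) (hs : SmoothN f) {e : K} (he : e ≠ 0)
    {x : Fin 2 → ℝ} {δ : ℝ}
    (hbox : ∀ b : Fin 2 → ℝ, (∀ k, |b k - x k| < δ) → 0 < eval b (map σ (C e * f)))
    {z : Fin 2 → K} {w : K} (hw : w ≠ 0) (hon : w ^ 2 = eval z (C e * f)) (hz : Start f z)
    (hzx : ∀ k, |σ (z k) - x k| < δ) {y : Fin 2 → ℝ} (hy : ∀ k, |y k - x k| < δ) {B : Set K}
    (hB : B.Finite) {ε : ℝ} (hε : 0 < ε) {ε' : ℝ} (hε' : 0 < ε') :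
    ∃ z' w', 0 < σ w' * σ w ∧ w' ^ 2 = eval z' (C e * f) ∧ Start f z' ∧ (∀ k, z' k ∉ B) ∧
      (∀ k, |σ (z' k) - y k| < ε) ∧ Nr τ ε' z w z' w' := by
  obtain ⟨i, j, hz⟩ := hz
  have hz : St f z i j := hz
  have hij := hz.1
  have hk : ∀ k : Fin 2, k = i ∨ k = j := by
    intro k
    omega
  obtain ⟨r, Z, a1, a2, a3, a4, a5, a6, a7⟩ := turn h2 h3 h4 σ τ hf hs he hbox hw hon hz hzx (hy i)
    hB hε hε'
  obtain ⟨r', Z', c1, c2, c3, c4, c5, c6, c7⟩ := turn h2 h3 h4 σ τ hf hs he hbox (ne_of_sign a3) a4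
    a5 a6 (hy j) hB hε hε'
  refine ⟨_, Z', sign_trans a3 c3, c4, c5.start, ?_, ?_, a7.trans c7⟩
  · intro k
    rcases hk k with rfl | rfl
    · rw [Function.update_of_ne hij, Function.update_self]
      exact a2
    · rw [Function.update_self]
      exact c2
  · intro k
    rcases hk k with rfl | rfl
    · rw [Function.update_of_ne hij, Function.update_self]
      exact a1
    · rw [Function.update_self]
      exact c1

/-- changing the sheet along a regular line -/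
theorem flip1 (h2 : S_TWS) (h3 : S_SPE) (h4 : S_TBN) (σ : K →+* ℝ) (τ : ∀ v, K →+* ℚ_[p v])
    {f : MvPolynomial (Fin 2) K} (hf : ∀ j, f.degreeOf j ≤ 4) (hs : SmoothN f) {e : K} (he : e ≠ 0)
    {z : Fin 2 → K} {w : K} (hw : w ≠ 0) (hon : w ^ 2 = eval z (C e * f)) {i j : Fin 2}
    (hz : St f z i j) {t : ℝ}
    (hroot : eval (Function.update (fun k => σ (z k)) i t) (map σ (C e * f)) = 0)
    {ε : ℝ} (hε : 0 < ε) :
    ∃ r Z : K, |σ r - σ (z i)| < ε ∧ σ Z * σ w < 0 ∧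
      Z ^ 2 = eval (Function.update z i r) (C e * f) ∧ St f (Function.update z i r) j i ∧
      Nr τ ε z w (Function.update z i r) Z := by
  classical
  have hd : ∀ j, (C e * f).degreeOf j ≤ 4 := fun j => (degreeOf_C_mul_le f j e).trans (hf j)
  obtain ⟨hij, hT, hR⟩ := hz
  have hF1 : ({t : K | TorN f (Function.update z i t) j} ∪
      {c : K | ∃ x : Fin 2 → K, x i = c ∧ ¬ Reg f x j i}).Finite :=
    (h4 K 2 f hf z i j hij hR.2).union (fin_reg h3 hf hs j i (Ne.symm hij))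
  obtain ⟨r, Z, a1, a2, a3, a4, a5⟩ := line_flip σ τ hd hw hon (io_tw h2 hf he hT hR.1) hroot hF1 hε
  rw [Set.mem_union, not_or] at a3
  refine ⟨r, Z, a1, a2, a4, ⟨Ne.symm hij, a3.1, ?_⟩, a5⟩
  by_contra hcon
  exact a3.2 ⟨_, Function.update_self _ _ _, hcon⟩

/-- **Changing the sheet.** -/
theorem flip (h2 : S_TWS) (h3 : S_SPE) (h4 : S_TBN) (σ : K →+* ℝ) (τ : ∀ v, K →+* ℚ_[p v])
    {f : MvPolynomial (Fin 2) K} (hf : ∀ j, f.degreeOf j ≤ 4) (hs : SmoothN f) {e : K} (he : e ≠ 0)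
    {x : Fin 2 → ℝ} {δ : ℝ}
    (hbox : ∀ b : Fin 2 → ℝ, (∀ k, |b k - x k| < δ) → 0 < eval b (map σ (C e * f)))
    {k : Fin 2}
    (hroot : ∀ b : Fin 2 → ℝ, (∀ k, |b k - x k| < δ) →
      ∃ t : ℝ, eval (Function.update b k t) (map σ (C e * f)) = 0)
    {z : Fin 2 → K} {w : K} (hw : w ≠ 0) (hon : w ^ 2 = eval z (C e * f)) (hz : Start f z)
    (hzx : ∀ k, |σ (z k) - x k| < δ) {ε' : ℝ} (hε' : 0 < ε') :
    ∃ z' w', σ w' * σ w < 0 ∧ w' ^ 2 = eval z' (C e * f) ∧ Start f z' ∧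
      (∀ k, |σ (z' k) - x k| < δ) ∧ Nr τ ε' z w z' w' := by
  -- a point from which one can flip in the direction `k`
  obtain ⟨z1, w1, l, a1, a2, a3, a4, a5⟩ : ∃ z1 w1 l, 0 < σ w1 * σ w ∧
      w1 ^ 2 = eval z1 (C e * f) ∧ St f z1 k l ∧ (∀ k, |σ (z1 k) - x k| < δ) ∧
      Nr τ ε' z w z1 w1 := by
    obtain ⟨i, j, hz⟩ := hz
    have hz : St f z i j := hz
    have hij := hz.1
    have hδ : 0 < δ := (abs_nonneg _).trans_lt (hzx i)
    have hk : k = i ∨ k = j := by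
      omega
    have hxx : ∀ i, |x i - x i| < δ := fun i => by simpa using hδ
    obtain ⟨r, Z, a1, a2, a3, a4, a5, a6, a7⟩ := turn h2 h3 h4 σ τ hf hs he hbox hw hon hz hzx
      (hxx i) Set.finite_empty hδ hε'
    rcases hk with rfl | rfl
    · obtain ⟨r', Z', c1, c2, c3, c4, c5, c6, c7⟩ := turn h2 h3 h4 σ τ hf hs he hbox (ne_of_sign a3)
        a4 a5 a6 (hxx j) Set.finite_empty hδ hε'
      exact ⟨_, Z', _, sign_trans a3 c3, c4, c5, c6, a7.trans c7⟩
    · exact ⟨_, Z, _, a3, a4, a5, a6, a7⟩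
  obtain ⟨t, ht⟩ := hroot _ a4
  obtain ⟨r, Z, c1, c2, c3, c4, c5⟩ := flip1 h2 h3 h4 σ τ hf hs he (ne_of_sign a1) a2 a3 ht
    (ε := min ε' (δ - |σ (z1 k) - x k|)) (lt_min hε' (by have := a4 k; linarith))
  refine ⟨_, Z, ?_, c3, c4.start, ?_, a5.trans (c5.mono (min_le_left _ _))⟩
  · by_contra hcon
    push Not at hcon
    have h5 : σ w1 ≠ 0 := by
      intro h0
      rw [h0, zero_mul] at a1
      exact lt_irrefl _ a1
    have h6 : 0 < σ w1 ^ 2 := by positivity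
    have h7 : (σ Z * σ w1) * (σ w1 * σ w) = σ w1 ^ 2 * (σ Z * σ w) := by ring
    nlinarith [mul_pos_of_neg_of_neg c2 (neg_lt_zero.2 a1), mul_nonneg h6.le hcon]
  · intro l
    by_cases h : l = k
    · subst h
      rw [Function.update_self]
      have b1 := c1.trans_le (min_le_right _ _)
      have b2 := abs_add_le (σ r - σ (z1 l)) (σ (z1 l) - x l)
      have b3 : σ r - σ (z1 l) + (σ (z1 l) - x l) = σ r - x l := by ring
      rw [b3] at b2
      linarith
    · rw [Function.update_of_ne h]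
      exact a4 l

end box

end Pool.Agent.U199.ZS
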