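import Pool.Agent.U199.ZS.A

/-!
# Changing the sign of the real ordinate
-/

set_option autoImplicit false
set_option linter.unusedSectionVars false
set_option linter.unusedVariables false

open WeierstrassCurve Filter Topology Pool.Agent.Y720.MZ Pool.Agent.Y718.X

namespace Pool.Agent.U199.ZS

open Pool.Agent.Q35.ZC (dq tq yq qp gp S_INJ)

variable {K : Type} [Field K] [DecidableEq K]

/-- finitely many points have abscissa in a finite set -/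
lemma fin_bad [CharZero K] {w q₁ q₂ q₃ q₄ : K} (hw0 : w ≠ 0) {F : Set K} (hF : F.Finite) :
    {x : K | ∃ y : K, y ^ 2 = x ^ 3 + q₂ * x ^ 2 + rb w q₁ q₃ q₄ * x + rc w q₁ q₂ q₃ q₄ ∧
      x ≠ xs w q₁ q₂ ∧ Df w q₁ q₃ x y ≠ 0 ∧ tf w q₁ q₂ q₃ x y ∈ F}.Finite := by
  set S : Set (K × K) := {s | s.2 ^ 2 = s.1 ^ 3 + q₂ * s.1 ^ 2 + rb w q₁ q₃ q₄ * s.1 +
    rc w q₁ q₂ q₃ q₄ ∧ s.1 ≠ xs w q₁ q₂ ∧ Df w q₁ q₃ s.1 s.2 ≠ 0 ∧ tf w q₁ q₂ q₃ s.1 s.2 ∈ F} with hS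
  set G : Set (K × K) := ⋃ t ∈ F, (fun Y => (t, Y)) ''
    {Y : K | Y ^ 2 = w ^ 2 + q₁ * t + q₂ * t ^ 2 + q₃ * t ^ 3 + q₄ * t ^ 4} with hG
  have hGf : G.Finite := by
    refine hF.biUnion fun t _ => Set.Finite.image _ ?_
    generalize w ^ 2 + q₁ * t + q₂ * t ^ 2 + q₃ * t ^ 3 + q₄ * t ^ 4 = c
    by_cases h : ∃ Y : K, Y ^ 2 = c
    · obtain ⟨Y, hY⟩ := h
      refine (Set.toFinite {Y, -Y}).subset fun Z hZ => ?_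
      have h1 : Z ^ 2 = Y ^ 2 := by
        rw [hY]; exact hZ
      rcases sq_eq_sq_iff_eq_or_eq_neg.1 h1 with h2 | h2
      · exact Or.inl h2
      · exact Or.inr h2
    · push Not at h
      refine Set.finite_empty.subset fun Z hZ => ?_
      exact absurd hZ (h Z)
  obtain ⟨-, hinj, -⟩ := Pool.Agent.Q26.ZC.inj K (w, ![q₁, q₂, q₃, q₄]) hw0
  have hSf : S.Finite := by
    refine Set.Finite.of_injOn (f := fun s : K × K => (tf w q₁ q₂ q₃ s.1 s.2, Yf w q₁ q₂ q₃ s.1 s.2))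
      (t := G) ?_ ?_ hGf
    · rintro ⟨x, y⟩ ⟨h1, h2, h3, h4⟩
      rw [hG, Set.mem_iUnion₂]
      exact ⟨_, h4, _, Yf_eqn hw0 h1 h3, rfl⟩
    · rintro ⟨x, y⟩ ⟨h1, h2, h3, h4⟩ ⟨x', y'⟩ ⟨h1', h2', h3', h4'⟩ he
      obtain ⟨e1, e2⟩ := Prod.mk.inj he
      obtain ⟨e3, e4⟩ := hinj x y x' y' h2 h3 h3' e1 e2
      exact Prod.ext e3 e4
  refine (hSf.image Prod.fst).subset ?_
  rintro x ⟨y, hy⟩
  exact ⟨(x, y), hy, rfl⟩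

/-- **Changing the sign.** -/
theorem mix_flip (σ : K →+* ℝ) {ι : Type} [Finite ι] {p : ι → ℕ} [∀ i, Fact (p i).Prime]
    (τ : ∀ i, K →+* ℚ_[p i]) {w q₁ q₂ q₃ q₄ : K} (hw0 : w ≠ 0)
    (hD : dsc q₂ (rb w q₁ q₃ q₄) (rc w q₁ q₂ q₃ q₄) ≠ 0)
    (hS : ∀ h, ∀ n : ℕ, n ≠ 0 → n • (.some (xs w q₁ q₂) (ys w q₁ q₂ q₃) h :
      Pt q₂ (rb w q₁ q₃ q₄) (rc w q₁ q₂ q₃ q₄)) ≠ 0) {t : ℝ}
    (hroot : Qr (σ w) (σ q₁) (σ q₂) (σ q₃) (σ q₄) t = 0) {F : Set K} (hF : F.Finite)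
    {ε : ℝ} (hε : 0 < ε) : ∃ r Y : K, |σ r| < ε ∧ |σ Y + σ w| < ε ∧ r ∉ F ∧
      Y ^ 2 = w ^ 2 + q₁ * r + q₂ * r ^ 2 + q₃ * r ^ 3 + q₄ * r ^ 4 ∧ Cl τ ε r Y w := by
  have hch : CharZero K := σ.charZero
  have hns := ns_of_dsc hD (s_eqn (q₁ := q₁) (q₂ := q₂) (q₃ := q₃) (q₄ := q₄) hw0)
  have hys : ys w q₁ q₂ q₃ ≠ 0 := by
    intro h0
    apply hS hns 2 two_ne_zero
    rw [two_smul]
    exact dbl_zero hns (by rw [h0, mul_zero])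
  have e1 : σ (rb w q₁ q₃ q₄) = rb (σ w) (σ q₁) (σ q₃) (σ q₄) := by simp [rb, map_ofNat]
  have e2 : σ (rc w q₁ q₂ q₃ q₄) = rc (σ w) (σ q₁) (σ q₂) (σ q₃) (σ q₄) := by simp [rc, map_ofNat]
  have e3 : σ (xs w q₁ q₂) = xs (σ w) (σ q₁) (σ q₂) := by simp [xs, map_ofNat]
  have e4 : σ (ys w q₁ q₂ q₃) = ys (σ w) (σ q₁) (σ q₂) (σ q₃) := by simp [ys, xs, map_ofNat]
  have hDr : dsc (σ q₂) (rb (σ w) (σ q₁) (σ q₃) (σ q₄)) (rc (σ w) (σ q₁) (σ q₂) (σ q₃) (σ q₄)) ≠ 0 := by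
    rw [← e1, ← e2, ← map_dsc]
    exact (map_ne_zero σ).2 hD
  have hw' : σ w ≠ 0 := (map_ne_zero σ).2 hw0
  set X : ℝ := xs (σ w) (σ q₁) (σ q₂) with hX
  set Y : ℝ := ys (σ w) (σ q₁) (σ q₂) (σ q₃) with hY
  have hY0 : Y ≠ 0 := by rw [← e4]; exact (map_ne_zero σ).2 hys
  have hYX : Y ^ 2 = gg (σ q₂) (rb (σ w) (σ q₁) (σ q₃) (σ q₄)) (rc (σ w) (σ q₁) (σ q₂) (σ q₃) (σ q₄)) X :=
    s_eqn (q₁ := σ q₁) (q₂ := σ q₂) (q₃ := σ q₃) (q₄ := σ q₄) hw'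
  obtain ⟨-, -, h3⟩ := Pool.Agent.Q26.ZC.inj ℝ (σ w, ![σ q₁, σ q₂, σ q₃, σ q₄]) hw'
  obtain ⟨h4, h5, h6, -⟩ := h3 hY0
  have h4 : Df (σ w) (σ q₁) (σ q₃) X (-Y) ≠ 0 := h4
  have h5 : tf (σ w) (σ q₁) (σ q₂) (σ q₃) X (-Y) = 0 := h5
  have h6 : Yf (σ w) (σ q₁) (σ q₂) (σ q₃) X (-Y) = -σ w := h6
  -- the target
  obtain ⟨s, hs⟩ : ∃ s : ℝ, s * |Y| = Y ∧ s ^ 2 = 1 := by
    rcases le_total 0 Y with h | h
    · exact ⟨1, by rw [abs_of_nonneg h, one_mul], by norm_num⟩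
    · exact ⟨-1, by rw [abs_of_nonpos h]; ring, by norm_num⟩
  set η : ℝ → ℝ := fun ξ => -(s * Real.sqrt (gg (σ q₂) (rb (σ w) (σ q₁) (σ q₃) (σ q₄))
    (rc (σ w) (σ q₁) (σ q₂) (σ q₃) (σ q₄)) ξ)) with hη
  have lη : Tendsto η (𝓝[>] X) (𝓝 (-Y)) := by
    have h1 : Continuous η := by
      rw [hη]
      exact (continuous_const.mul (Real.continuous_sqrt.comp (gg_cont _ _ _))).neg
    have h2 : η X = -Y := by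
      rw [hη]
      simp only
      rw [← hYX, Real.sqrt_sq_eq_abs, hs.1]
    rw [← h2]
    exact (h1.tendsto X).mono_left nhdsWithin_le_nhds
  have lξ : Tendsto (fun ξ : ℝ => ξ) (𝓝[>] X) (𝓝 X) := tendsto_id.mono_left nhdsWithin_le_nhds
  have lden : Tendsto (fun ξ => Df (σ w) (σ q₁) (σ q₃) ξ (η ξ)) (𝓝[>] X)
      (𝓝 (Df (σ w) (σ q₁) (σ q₃) X (-Y))) :=
    ((lη.const_mul _).sub (lξ.const_mul _)).sub_const _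
  have lnum : Tendsto (fun ξ => Nf (σ w) (σ q₁) (σ q₂) ξ) (𝓝[>] X)
      (𝓝 (Nf (σ w) (σ q₁) (σ q₂) X)) :=
    ((lξ.add_const _).const_mul _).sub_const _
  have lt' : Tendsto (fun ξ => tf (σ w) (σ q₁) (σ q₂) (σ q₃) ξ (η ξ)) (𝓝[>] X)
      (𝓝 (tf (σ w) (σ q₁) (σ q₂) (σ q₃) X (-Y))) := lnum.div lden h4
  have lY : Tendsto (fun ξ => Yf (σ w) (σ q₁) (σ q₂) (σ q₃) ξ (η ξ)) (𝓝[>] X)
      (𝓝 (Yf (σ w) (σ q₁) (σ q₂) (σ q₃) X (-Y))) :=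
    ((lt'.mul ((lt'.mul lξ).sub_const (σ q₁))).div_const (2 * σ w)).const_add (-σ w)
  -- the bad points
  set B : Set K := {x : K | ∃ y : K, y ^ 2 = x ^ 3 + q₂ * x ^ 2 + rb w q₁ q₃ q₄ * x +
    rc w q₁ q₂ q₃ q₄ ∧ x ≠ xs w q₁ q₂ ∧ Df w q₁ q₃ x y ≠ 0 ∧ tf w q₁ q₂ q₃ x y ∈ F} ∪
      {xs w q₁ q₂} with hB
  have hBf : B.Finite := (fin_bad hw0 hF).union (Set.finite_singleton _)
  have hBc : IsClosed ((σ '' B) \ {X}) := ((hBf.image σ).subset Set.sdiff_subset).isClosed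
  have b0 : ∀ᶠ ξ in 𝓝[>] X, X < ξ := self_mem_nhdsWithin
  have b1 : ∀ᶠ ξ in 𝓝[>] X, ξ ∉ (σ '' B) \ {X} :=
    nhdsWithin_le_nhds (hBc.isOpen_compl.mem_nhds fun h => h.2 rfl)
  have b2 := lden.eventually_ne h4
  have b3 := (Metric.tendsto_nhds.1 lt') (ε / 2) (half_pos hε)
  have b4 := (Metric.tendsto_nhds.1 lY) (ε / 2) (half_pos hε)
  obtain ⟨ξ, c0, c1, c2, c3, c4⟩ := (b0.and (b1.and (b2.and (b3.and b4)))).exists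
  rw [h5, Real.dist_eq, sub_zero] at c3
  rw [h6, Real.dist_eq, sub_neg_eq_add] at c4
  have hright : ∀ x, X < x → 0 < gg (σ q₂) (rb (σ w) (σ q₁) (σ q₃) (σ q₄))
      (rc (σ w) (σ q₁) (σ q₂) (σ q₃) (σ q₄)) x := fun x hx => xs_right hw' hroot hDr x hx
  obtain ⟨x, y, hxy, hxB, hd, a1, a2, a3⟩ := mix σ τ hw0 hD hS (ξ := ξ) (η := η ξ)
    (fun x hx => by rw [e1, e2]; exact hright x (c0.trans hx))
    (by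
      rw [e1, e2, hη]
      simp only
      rw [neg_sq, mul_pow, hs.2, one_mul, Real.sq_sqrt (hright ξ c0).le]) c2 hBf
    (fun h => c1 ⟨h, c0.ne'⟩) (half_pos hε)
  refine ⟨tf w q₁ q₂ q₃ x y, Yf w q₁ q₂ q₃ x y, ?_, ?_, ?_, Yf_eqn hw0 hxy hd, fun i =>
    ⟨(a3 i).1.trans (half_lt_self hε), (a3 i).2.trans (half_lt_self hε)⟩⟩
  · have := abs_add_le (σ (tf w q₁ q₂ q₃ x y) - tf (σ w) (σ q₁) (σ q₂) (σ q₃) ξ (η ξ))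
      (tf (σ w) (σ q₁) (σ q₂) (σ q₃) ξ (η ξ))
    rw [sub_add_cancel] at this
    linarith
  · have := abs_add_le (σ (Yf w q₁ q₂ q₃ x y) - Yf (σ w) (σ q₁) (σ q₂) (σ q₃) ξ (η ξ))
      (Yf (σ w) (σ q₁) (σ q₂) (σ q₃) ξ (η ξ) + σ w)
    have e : σ (Yf w q₁ q₂ q₃ x y) - Yf (σ w) (σ q₁) (σ q₂) (σ q₃) ξ (η ξ) +
      (Yf (σ w) (σ q₁) (σ q₂) (σ q₃) ξ (η ξ) + σ w) = σ (Yf w q₁ q₂ q₃ x y) + σ w := by ring
    rw [e] at this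
    linarith
  · intro hr
    by_cases hx : x = xs w q₁ q₂
    · exact hxB (Or.inr hx)
    · exact hxB (Or.inl ⟨y, hxy, hx, hd, hr⟩)

end Pool.Agent.U199.ZS
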