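import Pool.Agent.U199.ZS.B

/-!
# Connected sets of real points, without moving at the `p`-adic places
-/

set_option autoImplicit false
set_option linter.unusedSectionVars false
set_option linter.unusedVariables false

open MvPolynomial Pool.Agent.Y720.MZ Filter Topology

namespace Pool.Agent.U199.ZS

open Pool.Agent.Q35.ZC
open Pool.Agent.Q35.TT (SmoothN TorN Tor TorT lc af bq tay ND S_TWS S_SPE S_TBN)
open Pool.Agent.U199.ZR (Start RS RB rp pr onX_map' bdry mvt real_smooth)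

variable {K : Type} [Field K] [NumberField K] {ι : Type} [Finite ι] {p : ι → ℕ}
  [hp : ∀ i, Fact (p i).Prime]

/-- closed under small changes at the `p`-adic places -/
def Cn (τ : ∀ v, K →+* ℚ_[p v]) (η : ℝ) (g : MvPolynomial (Fin 2) K)
    (R : Set ((Fin 2 → K) × K)) : Prop :=
  ∀ P ∈ R, OnCover g P ∧ ∀ z' w', w' ^ 2 = eval z' g → Nr τ η P.1 P.2 z' w' → (z', w') ∈ R

/-- the points where moves begin, on one sheet -/
def RSs (σ : K →+* ℝ) (f : MvPolynomial (Fin 2) K) (R : Set ((Fin 2 → K) × K)) (s : ℝ) :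
    Set ((Fin 2 → K) × K) :=
  {Q | Q ∈ R ∧ 0 < s * σ Q.2 ∧ Start f Q.1}

/-- the same outside `B` -/
def RBs (σ : K →+* ℝ) (f : MvPolynomial (Fin 2) K) (R : Set ((Fin 2 → K) × K)) (B : Set K)
    (s : ℝ) : Set ((Fin 2 → K) × K) :=
  {Q | Q ∈ R ∧ 0 < s * σ Q.2 ∧ Start f Q.1 ∧ ∀ k, Q.1 k ∉ B}

theorem sgn {a b s : ℝ} (h : 0 < b * a) (h' : 0 < s * a) : 0 < s * b := by
  have := mul_pos h h'
  have ha : a ≠ 0 := by
    rintro rfl
    simp at h
  have h1 : 0 < (s * b) * a ^ 2 := by nlinarith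
  exact (pos_iff_pos_of_mul_pos h1).2 (by positivity)

theorem sgn' {a b s : ℝ} (h : b * a < 0) (h' : 0 < s * a) : 0 < (-s) * b := by
  have : 0 < (-b) * a := by linarith
  have h1 := sgn this h'
  linarith

/-- negative values near a smooth point of the boundary -/
theorem root_near (G : MvPolynomial (Fin 2) ℝ) (x : Fin 2 → ℝ) (hx : eval x G = 0) {k : Fin 2}
    (hk : eval x (pderiv k G) ≠ 0) : ∃ W : Set (Fin 2 → ℝ), IsOpen W ∧ x ∈ W ∧
      ∀ b ∈ W, 0 < eval b G → ∃ t : ℝ, eval (Function.update b k t) G = 0 := by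
  obtain ⟨s, hs, hsx⟩ : ∃ s : ℝ, s * s = 1 ∧ 0 < s * eval x (pderiv k G) := by
    rcases lt_or_gt_of_ne hk with h | h
    · exact ⟨-1, by norm_num, by linarith⟩
    · exact ⟨1, by norm_num, by linarith⟩
  have hs1 : |s| = 1 := by
    have h1 : |s| * |s| = 1 := by rw [← abs_mul, hs, abs_one]
    nlinarith [abs_nonneg s]
  obtain ⟨δ, hδ, hball⟩ := Metric.isOpen_iff.mp (isOpen_lt continuous_const
    (show Continuous fun b : Fin 2 → ℝ => s * eval b (pderiv k G) from
      continuous_const.mul (continuous_eval _))) x hsx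
  set u : ℝ := x k + s * (-(δ / 2)) with hu
  have hux : |u - x k| < δ := by
    have e1 : u - x k = s * (-(δ / 2)) := by rw [hu]; ring
    rw [e1, abs_mul, hs1, one_mul, abs_neg, abs_of_pos (by linarith)]
    linarith
  have hneg : eval (Function.update x k u) G < 0 := by
    obtain ⟨ξ, h1, h2⟩ := mvt G x k u
    have h3 : 0 < s * eval (Function.update x k ξ) (pderiv k G) := by
      apply hball
      rw [Metric.mem_ball, dist_pi_lt_iff hδ]
      intro l
      rw [Real.dist_eq]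
      by_cases h : l = k
      · subst h
        rw [Function.update_self]
        exact Pool.Agent.U199.ZR.uicc_near h1 (by simpa using hδ) hux
      · rw [Function.update_of_ne h]
        simpa using hδ
    rw [hx, sub_zero] at h2
    rw [h2]
    have e1 : u - x k = s * (-(δ / 2)) := by rw [hu]; ring
    rw [e1]
    nlinarith
  have hc : Continuous fun b : Fin 2 → ℝ => eval (Function.update b k u) G :=
    (continuous_eval G).comp (continuous_id.update k continuous_const)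
  refine ⟨{b | eval (Function.update b k u) G < 0}, isOpen_lt hc continuous_const, hneg, ?_⟩
  intro b hb hpos
  have hb : eval (Function.update b k u) G < 0 := hb
  have hc2 : Continuous fun t : ℝ => eval (Function.update b k t) G :=
    (continuous_eval G).comp (continuous_const.update k continuous_id)
  obtain ⟨t, ht⟩ := mem_range_of_exists_le_of_exists_ge hc2 ⟨u, hb.le⟩
    ⟨b k, by rw [Function.update_eq_self]; exact hpos.le⟩
  exact ⟨t, ht⟩

section

variable (h2 : S_TWS) (h3 : S_SPE) (h4 : S_TBN) (σ : K →+* ℝ) (τ : ∀ v, K →+* ℚ_[p v])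
  {f : MvPolynomial (Fin 2) K} (hf : ∀ j, f.degreeOf j ≤ 4) (hs : SmoothN f) {e : K} (he : e ≠ 0)
  {η : ℝ} (hη : 0 < η)
  {R : Set ((Fin 2 → K) × K)} (hR : Cn τ η (C e * f) R) {B : Set K} (hB : B.Finite)

include h2 h3 h4 hf hs he hR hB hη

/-- the closure of the projections is open where the polynomial is positive -/
theorem open_at {s : ℝ} {x : Fin 2 → ℝ} (hx : x ∈ closure (pr σ (RSs σ f R s)))
    (hpos : 0 < eval x (map σ (C e * f))) : closure (pr σ (RBs σ f R B s)) ∈ 𝓝 x := by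
  have hcont : Continuous fun x : Fin 2 → ℝ => eval x (map σ (C e * f)) := continuous_eval _
  obtain ⟨δ, hδ, hball⟩ := Metric.isOpen_iff.mp (isOpen_lt continuous_const hcont) x hpos
  have hbox : ∀ b : Fin 2 → ℝ, (∀ i, |b i - x i| < δ) → 0 < eval b (map σ (C e * f)) := by
    intro b hb
    have h1 : b ∈ Metric.ball x δ := by
      rw [Metric.mem_ball, dist_pi_lt_iff hδ]
      intro k
      rw [Real.dist_eq]
      exact hb k
    exact hball h1
  obtain ⟨_, ⟨_, ⟨⟨z, w⟩, ⟨hzR, hw, hst⟩, rfl⟩, rfl⟩, hd⟩ := Metric.mem_closure_iff.mp hx δ hδ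
  have hw0 : w ≠ 0 := by
    rintro rfl
    simp at hw
  have hzb : ∀ k, |σ (z k) - x k| < δ := by
    intro k
    rw [dist_comm, dist_pi_lt_iff hδ] at hd
    have := hd k
    rwa [Real.dist_eq] at this
  refine Filter.mem_of_superset (Metric.ball_mem_nhds x hδ) ?_
  intro y hy
  have hyb : ∀ k, |y k - x k| < δ := by
    intro k
    rw [Metric.mem_ball, dist_pi_lt_iff hδ] at hy
    have := hy k
    rwa [Real.dist_eq] at this
  rw [Metric.mem_closure_iff]
  intro ε hε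
  obtain ⟨z', w', a1, a2, a3, a4, a5, a6⟩ := box h2 h3 h4 σ τ hf hs he hbox hw0 (hR _ hzR).1 hst hzb
    hyb hB hε hη
  refine ⟨_, ⟨_, ⟨(z', w'), ⟨(hR _ hzR).2 z' w' a2 a6, sgn a1 hw, a3, a4⟩, rfl⟩, rfl⟩, ?_⟩
  rw [dist_comm, dist_pi_lt_iff hε]
  intro k
  rw [Real.dist_eq]
  exact a5 k

theorem conn_D {s : ℝ} {P : Set (Fin 2 → ℝ)} (hP : IsPreconnected P)
    (hpos : ∀ x ∈ P, 0 < eval x (map σ (C e * f)))
    (hne : (P ∩ closure (pr σ (RSs σ f R s))).Nonempty) : P ⊆ closure (pr σ (RBs σ f R B s)) := by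
  have hDD : closure (pr σ (RBs σ f R B s)) ⊆ closure (pr σ (RSs σ f R s)) :=
    closure_mono (Set.image_mono (by
      rintro _ ⟨Q, hQ, rfl⟩
      exact ⟨Q, ⟨hQ.1, hQ.2.1, hQ.2.2.1⟩, rfl⟩))
  have hop : ∀ x ∈ closure (pr σ (RSs σ f R s)), 0 < eval x (map σ (C e * f)) →
      x ∈ interior (closure (pr σ (RBs σ f R B s))) := fun x hx hp =>
    mem_interior_iff_mem_nhds.2 (open_at h2 h3 h4 σ τ hf hs he hη hR hB hx hp)
  rcases hP.subset_or_subset isOpen_interior isClosed_closure.isOpen_compl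
    (Set.disjoint_compl_right_iff_subset.mpr interior_subset) (fun x hx => by
      by_cases hxD : x ∈ closure (pr σ (RBs σ f R B s))
      · exact Or.inl (hop x (hDD hxD) (hpos x hx))
      · exact Or.inr hxD) with h | h
  · exact h.trans interior_subset
  · exfalso
    obtain ⟨x, hx1, hx2⟩ := hne
    exact h hx1 (interior_subset (hop _ hx2 (hpos _ hx1)))

omit h2 h3 h4 hf hs he hB hη in
theorem lift_D {s : ℝ} (hs1 : s * s = 1) {x : Fin 2 → ℝ} {y : ℝ}
    (hx : x ∈ closure (pr σ (RBs σ f R B s)))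
    (hy : y ^ 2 = eval x (map σ (C e * f))) (hsy : 0 ≤ s * y) :
    (x, y) ∈ closure (rp σ (RB f R B)) := by
  have hcont : Continuous fun x : Fin 2 → ℝ => Real.sqrt (eval x (map σ (C e * f))) :=
    Real.continuous_sqrt.comp (continuous_eval _)
  rw [Metric.mem_closure_iff]
  intro ε hε
  obtain ⟨δ, hδ, hδ1⟩ := Metric.continuous_iff.1 hcont x ε hε
  obtain ⟨_, ⟨_, ⟨⟨z, w⟩, ⟨hzR, hw, hst, hzB⟩, rfl⟩, rfl⟩, hd⟩ :=
    Metric.mem_closure_iff.1 hx (min ε δ) (lt_min hε hδ)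
  have hon : w ^ 2 = eval z (C e * f) := (hR _ hzR).1
  have hw : 0 < s * σ w := hw
  have hw0 : w ≠ 0 := by
    rintro rfl
    simp at hw
  have hd1 : dist (fun k => σ (z k)) x < min ε δ := by rw [dist_comm]; exact hd
  have h6 := hδ1 _ (hd1.trans_le (min_le_right _ _))
  have h7 : Real.sqrt (eval (fun k => σ (z k)) (map σ (C e * f))) = s * σ w := by
    rw [← onX_map' σ hon]
    have e1 : σ w ^ 2 = (s * σ w) ^ 2 := by
      linear_combination (-σ w ^ 2) * hs1
    rw [e1, Real.sqrt_sq hw.le]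
  have h8 : Real.sqrt (eval x (map σ (C e * f))) = s * y := by
    have e1 : y ^ 2 = (s * y) ^ 2 := by
      linear_combination (-y ^ 2) * hs1
    rw [← hy, e1, Real.sqrt_sq hsy]
  rw [h7, h8, Real.dist_eq, ← mul_sub, abs_mul] at h6
  have hs2 : |s| = 1 := by
    have h1 : |s| * |s| = 1 := by rw [← abs_mul, hs1, abs_one]
    nlinarith [abs_nonneg s]
  rw [hs2, one_mul] at h6
  refine ⟨_, ⟨(z, w), ⟨hzR, hw0, hst, hzB⟩, rfl⟩, ?_⟩
  rw [Prod.dist_eq, max_lt_iff]
  refine ⟨hd.trans_le (min_le_left _ _), ?_⟩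
  rw [dist_comm, Real.dist_eq]
  exact h6

/-- **The closure is open in the real points.** -/
theorem open_cover {T : (Fin 2 → ℝ) × ℝ} (hT : T ∈ closure (rp σ (RS f R)))
    (hon : OnCover (map σ (C e * f)) T) : ∃ N : Set ((Fin 2 → ℝ) × ℝ), IsOpen N ∧ T ∈ N ∧
      ∀ T' ∈ N, OnCover (map σ (C e * f)) T' → T' ∈ closure (rp σ (RB f R B)) := by
  obtain ⟨x, y⟩ := T
  have hy : y ^ 2 = eval x (map σ (C e * f)) := hon
  have e1 : map σ (C e * f) = C (σ e) * map σ f := by rw [map_mul, map_C]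
  by_cases hy0 : y = 0
  · rw [hy0, zero_pow two_ne_zero] at hy
    have hx0 : eval x (map σ f) = 0 := by
      rw [e1, map_mul, eval_C] at hy
      exact (mul_eq_zero.1 hy.symm).resolve_left ((map_ne_zero σ).2 he)
    obtain ⟨k, hk⟩ := real_smooth hf hs σ x hx0
    have hk' : eval x (pderiv k (map σ (C e * f))) ≠ 0 := by
      rw [e1, pderiv_C_mul, pderiv_map, map_mul, eval_C]
      exact mul_ne_zero ((map_ne_zero σ).2 he) hk
    obtain ⟨W, hWo, hxW, hW1, hW2⟩ := bdry (map σ (C e * f)) x hy.symm (k := k) hk'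
    obtain ⟨V, hVo, hxV, hV1⟩ := root_near (map σ (C e * f)) x hy.symm (k := k) hk'
    -- a point of the set in `W ∩ V`
    have hWV : IsOpen ((fun T : (Fin 2 → ℝ) × ℝ => T.1) ⁻¹' (W ∩ V)) :=
      (hWo.inter hVo).preimage continuous_fst
    obtain ⟨_, hbW, ⟨⟨z, w⟩, hzR, rfl⟩⟩ := mem_closure_iff.1 hT _ hWV ⟨hxW, hxV⟩
    have hbW : (fun k => σ (z k)) ∈ W ∩ V := hbW
    have hw0 : w ≠ 0 := hzR.2.1
    have hon1 : w ^ 2 = eval z (C e * f) := (hR _ hzR.1).1
    have hb : 0 < eval (fun k => σ (z k)) (map σ (C e * f)) := by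
      rw [← onX_map' σ hon1]
      have := (map_ne_zero σ).2 hw0
      positivity
    -- the sheet
    obtain ⟨s, hs1, hsw⟩ : ∃ s : ℝ, s * s = 1 ∧ 0 < s * σ w := by
      rcases lt_or_gt_of_ne ((map_ne_zero σ).2 hw0) with h | h
      · exact ⟨-1, by norm_num, by linarith⟩
      · exact ⟨1, by norm_num, by linarith⟩
    -- a point on the other sheet
    obtain ⟨z', w', hz'R, hz'W, hz'pos⟩ : ∃ z' w', (z', w') ∈ RSs σ f R (-s) ∧
        (fun k => σ (z' k)) ∈ W ∧ 0 < eval (fun k => σ (z' k)) (map σ (C e * f)) := by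
      have hcont : Continuous fun x : Fin 2 → ℝ => eval x (map σ (C e * f)) := continuous_eval _
      obtain ⟨δ, hδ, hball⟩ := Metric.isOpen_iff.mp
        ((hWo.inter hVo).inter (isOpen_lt continuous_const hcont)) _ ⟨hbW, hb⟩
      have hin : ∀ b : Fin 2 → ℝ, (∀ i, |b i - σ (z i)| < δ) →
          b ∈ (W ∩ V) ∩ {x | 0 < eval x (map σ (C e * f))} := by
        intro b hb
        apply hball
        rw [Metric.mem_ball, dist_pi_lt_iff hδ]
        intro k
        rw [Real.dist_eq]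
        exact hb k
      obtain ⟨z', w', a1, a2, a3, a4, a5⟩ := flip h2 h3 h4 σ τ hf hs he
        (x := fun k => σ (z k)) (δ := δ) (fun b hb => (hin b hb).2) (k := k)
        (fun b hb => hV1 b (hin b hb).1.2 (hin b hb).2) hw0 hon1 hzR.2.2
        (fun k => by simpa using hδ) hη
      have h5 := hin _ a4
      exact ⟨z', w', ⟨(hR _ hzR.1).2 z' w' a2 a5, sgn' a1 hsw, a3⟩, h5.1.1, h5.2⟩
    have hpos1 : ∀ b ∈ W, 0 < eval b (map σ (C e * f)) → b ∈ closure (pr σ (RBs σ f R B s)) := by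
      intro b hb1 hb2
      obtain ⟨P, p1, p2, p3, p4⟩ := hW1 _ hbW.1 b hb1 hb hb2
      exact conn_D h2 h3 h4 σ τ hf hs he hη hR hB p1 p4
        ⟨_, p2, subset_closure ⟨_, ⟨(z, w), ⟨hzR.1, hsw, hzR.2.2⟩, rfl⟩, rfl⟩⟩ p3
    have hpos2 : ∀ b ∈ W, 0 < eval b (map σ (C e * f)) → b ∈ closure (pr σ (RBs σ f R B (-s))) := by
      intro b hb1 hb2
      obtain ⟨P, p1, p2, p3, p4⟩ := hW1 _ hz'W b hb1 hz'pos hb2
      exact conn_D h2 h3 h4 σ τ hf hs he hη hR hB p1 p4
        ⟨_, p2, subset_closure ⟨_, ⟨(z', w'), hz'R, rfl⟩, rfl⟩⟩ p3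
    refine ⟨(fun T => T.1) ⁻¹' W, hWo.preimage continuous_fst, hxW, ?_⟩
    rintro ⟨x', y'⟩ hT' hon'
    have hy' : y' ^ 2 = eval x' (map σ (C e * f)) := hon'
    have hall : ∀ s' : ℝ, (∀ b ∈ W, 0 < eval b (map σ (C e * f)) →
        b ∈ closure (pr σ (RBs σ f R B s'))) → x' ∈ closure (pr σ (RBs σ f R B s')) := by
      intro s' hs'
      rcases (show 0 ≤ eval x' (map σ (C e * f)) by rw [← hy']; positivity).lt_or_eq with h | h
      · exact hs' _ hT' h
      · have h5 := hW2 x' hT' h.symm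
        refine closure_minimal ?_ isClosed_closure h5
        rintro b ⟨hb1, hb2⟩
        exact hs' b hb1 hb2
    rcases le_total 0 (s * y') with h | h
    · exact lift_D σ τ hR hs1 (hall s hpos1) hy' h
    · exact lift_D σ τ hR (s := -s) (by linarith) (hall (-s) hpos2) hy' (by linarith)
  · have hp' : 0 < eval x (map σ (C e * f)) := by
      rw [← hy]; positivity
    obtain ⟨s, hs1, hsy⟩ : ∃ s : ℝ, s * s = 1 ∧ 0 < s * y := by
      rcases lt_or_gt_of_ne hy0 with h | h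
      · exact ⟨-1, by norm_num, by linarith⟩
      · exact ⟨1, by norm_num, by linarith⟩
    have hos : IsOpen {T : (Fin 2 → ℝ) × ℝ | 0 < s * T.2} :=
      isOpen_lt continuous_const (continuous_const.mul continuous_snd)
    have hx : x ∈ closure (pr σ (RSs σ f R s)) := by
      rw [mem_closure_iff]
      intro U hU hxU
      obtain ⟨_, ⟨hb1, hb2⟩, ⟨⟨z, w⟩, hzR, rfl⟩⟩ := mem_closure_iff.1 hT _
        ((hU.preimage continuous_fst).inter hos) ⟨hxU, hsy⟩
      exact ⟨_, hb1, _, ⟨(z, w), ⟨hzR.1, hb2, hzR.2.2⟩, rfl⟩, rfl⟩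
    have h5 := open_at h2 h3 h4 σ τ hf hs he hη hR hB hx hp'
    refine ⟨((fun T => T.1) ⁻¹' interior (closure (pr σ (RBs σ f R B s)))) ∩
      {T : (Fin 2 → ℝ) × ℝ | 0 < s * T.2},
      (isOpen_interior.preimage continuous_fst).inter hos, ⟨mem_interior_iff_mem_nhds.2 h5, hsy⟩, ?_⟩
    rintro ⟨x', y'⟩ ⟨hT', hT2⟩ hon'
    have hT2 : 0 < s * y' := hT2
    exact lift_D σ τ hR hs1 (interior_subset hT') hon' hT2.le

/-- **Connected sets of real points.** -/
theorem comp0 {S : Set ((Fin 2 → ℝ) × ℝ)} (hSc : IsPreconnected S)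
    (hSon : ∀ T ∈ S, OnCover (map σ (C e * f)) T)
    (hne : (S ∩ closure (rp σ (RS f R))).Nonempty) : S ⊆ closure (rp σ (RB f R B)) := by
  have hZZ : closure (rp σ (RB f R B)) ⊆ closure (rp σ (RS f R)) := closure_mono (by
    rintro _ ⟨Q, hQ, rfl⟩
    exact ⟨Q, ⟨hQ.1, hQ.2.1, hQ.2.2.1⟩, rfl⟩)
  have hloc := fun {T} (hT : T ∈ closure (rp σ (RS f R))) (hon : OnCover (map σ (C e * f)) T) =>
    open_cover h2 h3 h4 σ τ hf hs he hη hR hB hT hon
  set U : Set ((Fin 2 → ℝ) × ℝ) := ⋃₀ {N | IsOpen N ∧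
    ∀ T' ∈ N, OnCover (map σ (C e * f)) T' → T' ∈ closure (rp σ (RB f R B))} with hU
  have hUo : IsOpen U := isOpen_sUnion fun N hN => hN.1
  rw [isPreconnected_iff_subset_of_disjoint] at hSc
  rcases hSc U (closure (rp σ (RB f R B)))ᶜ hUo isClosed_closure.isOpen_compl (fun T hT => by
      by_cases h : T ∈ closure (rp σ (RB f R B))
      · obtain ⟨N, n1, n2, n3⟩ := hloc (hZZ h) (hSon T hT)
        exact Or.inl ⟨N, ⟨n1, n3⟩, n2⟩
      · exact Or.inr h) (by
      rw [Set.eq_empty_iff_forall_notMem]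
      rintro T ⟨hT, ⟨N, ⟨n1, n3⟩, n2⟩, hT3⟩
      exact hT3 (n3 T n2 (hSon T hT))) with h | h
  · intro T hT
    obtain ⟨N, ⟨n1, n3⟩, n2⟩ := h hT
    exact n3 T n2 (hSon T hT)
  · exfalso
    obtain ⟨T, hT1, hT2⟩ := hne
    obtain ⟨N, n1, n2, n3⟩ := hloc hT2 (hSon T hT1)
    exact h hT1 (n3 T n2 (hSon T hT1))

end

end Pool.Agent.U199.ZS
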