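import Pool.Agent.U199.ZS.G

/-!
# The closure in the product of the real points and the `p`-adic points
-/

set_option autoImplicit false
set_option linter.unusedSectionVars false
set_option linter.unusedVariables false

open MvPolynomial Pool.Agent.Y720.MZ Filter Topology

namespace Pool.Agent.U199.ZS

open Pool.Agent.Q35.ZC
open Pool.Agent.Q35.TT (SmoothN TorN Tor TorT lc af bq tay ND S_TWS S_SPE S_TBN)
open Pool.Agent.U199.ZR (Start RS RB rp pr Reg fin_reg)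

variable {K : Type} [Field K] [NumberField K] {ι : Type} [Finite ι] {p : ι → ℕ}
  [hp : ∀ i, Fact (p i).Prime]

/-- the images of the points of `R` in the product -/
def im (σ : K →+* ℝ) (τ : ∀ v, K →+* ℚ_[p v]) (R : Set ((Fin 2 → K) × K)) :
    Set (((Fin 2 → ℝ) × ℝ) × ∀ v, (Fin 2 → ℚ_[p v]) × ℚ_[p v]) :=
  {S | ∃ P ∈ R, S = (image σ P, fun v => image (τ v) P)}

/-- the points close to `y` -/
def Rn (τ : ∀ v, K →+* ℚ_[p v]) (g : MvPolynomial (Fin 2) K)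
    (y : ∀ v, (Fin 2 → ℚ_[p v]) × ℚ_[p v]) (η : ℝ) : Set ((Fin 2 → K) × K) :=
  {P | OnCover g P ∧ ∀ v, (∀ k, ‖τ v (P.1 k) - (y v).1 k‖ < η) ∧ ‖τ v P.2 - (y v).2‖ < η}

theorem cn_rn (τ : ∀ v, K →+* ℚ_[p v]) (g : MvPolynomial (Fin 2) K)
    (y : ∀ v, (Fin 2 → ℚ_[p v]) × ℚ_[p v]) (η : ℝ) : Cn τ η g (Rn τ g y η) := by
  rintro ⟨z, w⟩ ⟨hon, hP⟩
  refine ⟨hon, fun z' w' hon' h => ⟨hon', fun v => ⟨fun k => ?_, ?_⟩⟩⟩
  · have h1 := Padic.nonarchimedean (τ v (z' k) - τ v (z k)) (τ v (z k) - (y v).1 k)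
    rw [sub_add_sub_cancel] at h1
    exact h1.trans_lt (max_lt ((h v).1 k) ((hP v).1 k))
  · have h1 := Padic.nonarchimedean (τ v w' - τ v w) (τ v w - (y v).2)
    rw [sub_add_sub_cancel] at h1
    exact h1.trans_lt (max_lt (h v).2 (hP v).2)

theorem dist_im {y : ∀ v, (Fin 2 → ℚ_[p v]) × ℚ_[p v]} [Fintype ι] (τ : ∀ v, K →+* ℚ_[p v])
    (P : (Fin 2 → K) × K) {η : ℝ} (hη : 0 < η) :
    dist (fun v => image (τ v) P) y < η ↔
      ∀ v, (∀ k, ‖τ v (P.1 k) - (y v).1 k‖ < η) ∧ ‖τ v P.2 - (y v).2‖ < η := by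
  rw [dist_pi_lt_iff hη]
  refine forall_congr' fun v => ?_
  rw [Prod.dist_eq, max_lt_iff, dist_pi_lt_iff hη]
  simp only [dist_eq_norm, image]

/-- **Connected sets of real points.** -/
theorem prod_comp (h2 : S_TWS) (h3 : S_SPE) (h4 : S_TBN) (σ : K →+* ℝ) (τ : ∀ v, K →+* ℚ_[p v])
    {f : MvPolynomial (Fin 2) K} (hf : ∀ j, f.degreeOf j ≤ 4) (hs : SmoothN f) {e : K} (he : e ≠ 0)
    {B : Set K} (hB : B.Finite) {x : (Fin 2 → ℝ) × ℝ} {y : ∀ v, (Fin 2 → ℚ_[p v]) × ℚ_[p v]}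
    (hxy : (x, y) ∈ closure (im σ τ {P | OnCover (C e * f) P ∧ P.2 ≠ 0 ∧ Start f P.1}))
    {M : Set ((Fin 2 → ℝ) × ℝ)} (hM : IsPreconnected M)
    (hMon : ∀ T ∈ M, OnCover (map σ (C e * f)) T) (hx : x ∈ M) :
    ∀ x' ∈ M, (x', y) ∈ closure (im σ τ
      {P | OnCover (C e * f) P ∧ P.2 ≠ 0 ∧ Start f P.1 ∧ ∀ k, P.1 k ∉ B}) := by
  have : Fintype ι := Fintype.ofFinite ι
  intro x' hx'
  rw [Metric.mem_closure_iff]
  intro η hη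
  have h5 : x ∈ closure (rp σ (RS f (Rn τ (C e * f) y η))) := by
    rw [Metric.mem_closure_iff]
    intro ε hε
    obtain ⟨_, ⟨P, ⟨hP1, hP2, hP3⟩, rfl⟩, hd⟩ := Metric.mem_closure_iff.1 hxy (min ε η)
      (lt_min hε hη)
    rw [Prod.dist_eq, max_lt_iff] at hd
    refine ⟨_, ⟨P, ⟨⟨hP1, ?_⟩, hP2, hP3⟩, rfl⟩, hd.1.trans_le (min_le_left _ _)⟩
    rw [← dist_im τ P hη, dist_comm]
    exact hd.2.trans_le (min_le_right _ _)
  have h6 := comp0 h2 h3 h4 σ τ hf hs he hη (cn_rn τ (C e * f) y η) hB hM hMon ⟨x, hx, h5⟩ hx'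
  obtain ⟨_, ⟨P, ⟨hP1, hP2, hP3, hP4⟩, rfl⟩, hd⟩ := Metric.mem_closure_iff.1 h6 η hη
  refine ⟨_, ⟨P, ⟨hP1.1, hP2, hP3, hP4⟩, rfl⟩, ?_⟩
  rw [Prod.dist_eq, max_lt_iff]
  refine ⟨hd, ?_⟩
  rw [dist_comm]
  exact (dist_im τ P hη).2 hP1.2

/-- points near a real point outside finitely many points and lines -/
theorem near_out (σ : K →+* ℝ) {T : Set (Fin 2 → K)} {E : Fin 2 → Set K} (hT : T.Finite)
    (hE : ∀ j, (E j).Finite) {x : (Fin 2 → ℝ) × ℝ} (hx : x.2 ≠ 0)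
    (hxT : ∀ t ∈ T, x.1 ≠ fun k => σ (t k)) (hxE : ∀ j, ∀ c ∈ E j, x.1 j ≠ σ c) :
    ∃ N : Set ((Fin 2 → ℝ) × ℝ), IsOpen N ∧ x ∈ N ∧ ∀ P : (Fin 2 → K) × K, image σ P ∈ N →
      P.2 ≠ 0 ∧ P.1 ∉ T ∧ ∀ j, P.1 j ∉ E j := by
  have hT' : IsClosed ((fun t : Fin 2 → K => fun k => σ (t k)) '' T) := (hT.image _).isClosed
  have hE' : ∀ j, IsClosed (σ '' E j) := fun j => ((hE j).image _).isClosed
  refine ⟨({S | S.2 ≠ 0} ∩ (fun S => S.1) ⁻¹' ((fun t : Fin 2 → K => fun k => σ (t k)) '' T)ᶜ) ∩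
    ⋂ j, (fun S : (Fin 2 → ℝ) × ℝ => S.1 j) ⁻¹' (σ '' E j)ᶜ, ?_, ⟨⟨hx, ?_⟩, ?_⟩, ?_⟩
  · refine IsOpen.inter (IsOpen.inter ?_ (hT'.isOpen_compl.preimage continuous_fst))
      (isOpen_iInter_of_finite fun j => (hE' j).isOpen_compl.preimage
        ((continuous_apply j).comp continuous_fst))
    exact isOpen_ne.preimage continuous_snd
  · rintro ⟨t, ht, h⟩
    exact hxT t ht h.symm
  · refine Set.mem_iInter.2 fun j => ?_
    rintro ⟨c, hc, h⟩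
    exact hxE j c hc h.symm
  · rintro P ⟨⟨h1, h2⟩, h3⟩
    refine ⟨?_, ?_, ?_⟩
    · intro h0
      exact h1 (by change σ P.2 = 0; rw [h0, map_zero])
    · intro h
      exact h2 ⟨_, h, rfl⟩
    · intro j h
      exact (Set.mem_iInter.1 h3 j) ⟨_, h, rfl⟩

end Pool.Agent.U199.ZS
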