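import Pool.Agent.U199.ZS.H
import Pool.Agent.U199.ZR.I
import Pool.Agent.U899.QA.Main

/-!
# The theorems in one chart
-/

set_option autoImplicit false
set_option linter.unusedSectionVars false
set_option linter.unusedVariables false

open MvPolynomial Pool.Agent.Y720.MZ Filter Topology

namespace Pool.Agent.U199.ZS

open Pool.Agent.Q35.ZC
open Pool.Agent.Q35.TT (SmoothN TorN Tor TorT lc af bq tay ND S_TWS S_SPE S_TBN)
open Pool.Agent.U199.ZR (Start RS RB rp pr Reg fin_reg h1 h2 h3 h4)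

/-- the points of `w² = g` outside the points `T`, the lines `E` and the branch curve -/
def Out {K : Type} [Field K] (g : MvPolynomial (Fin 2) K) (T : Set (Fin 2 → K))
    (E : Fin 2 → Set K) : Set ((Fin 2 → K) × K) :=
  {P | OnCover g P ∧ P.2 ≠ 0 ∧ P.1 ∉ T ∧ ∀ j, P.1 j ∉ E j}

section

variable {K : Type} [Field K] [NumberField K] {ι : Type} [Finite ι] {p : ι → ℕ}
  [hp : ∀ i, Fact (p i).Prime]

/-- the exceptional sets -/
def Good (f : MvPolynomial (Fin 2) K) (T : Set (Fin 2 → K)) (E : Fin 2 → Set K) : Prop :=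
  T.Finite ∧ (∀ j, (E j).Finite) ∧ ∀ z : Fin 2 → K, z ∉ T → (∀ j, z j ∉ E j) → Start f z

theorem exists_good {f : MvPolynomial (Fin 2) K} (hd : ∀ j, f.degreeOf j ≤ 4) (hsm : SmoothN f) :
    ∃ (T : Set (Fin 2 → K)) (E : Fin 2 → Set K), Good f T E := by
  classical
  set T : Set (Fin 2 → K) := {z | ∀ i, Pool.Agent.Q35.TT.TorN f z i} with hT
  set E : Fin 2 → Set K := fun j => {c | ∃ i, i ≠ j ∧ ∃ x : Fin 2 → K, x j = c ∧ ¬ Reg f x i j} with hE
  have hTf : T.Finite := h1 K 2 f hd hsm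
  have hEf : ∀ j, (E j).Finite := by
    intro j
    have h5 : (⋃ i ∈ {i : Fin 2 | i ≠ j}, {c | ∃ x : Fin 2 → K, x j = c ∧ ¬ Reg f x i j}).Finite :=
      (Set.toFinite _).biUnion fun i hi => fin_reg h3 hd hsm i j hi
    refine h5.subset ?_
    rintro c ⟨i, hi, x, hx, hn⟩
    exact Set.mem_iUnion₂.2 ⟨i, hi, x, hx, hn⟩
  refine ⟨T, E, hTf, hEf, ?_⟩
  intro z hz hzE
  rw [hT, Set.mem_ofPred_eq] at hz
  push Not at hz
  obtain ⟨i, hi⟩ := hz
  obtain ⟨j, hij⟩ : ∃ j : Fin 2, i ≠ j := by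
    fin_cases i
    · exact ⟨1, by decide⟩
    · exact ⟨0, by decide⟩
  refine ⟨i, j, hij, hi, ?_⟩
  by_contra hcon
  exact hzE j ⟨i, hij, z, rfl, hcon⟩

theorem Good.mono {f : MvPolynomial (Fin 2) K} {T T' : Set (Fin 2 → K)} {E E' : Fin 2 → Set K}
    (h : Good f T E) (hT : T'.Finite) (hE : ∀ j, (E' j).Finite) :
    Good f (T ∪ T') (fun j => E j ∪ E' j) :=
  ⟨h.1.union hT, fun j => (h.2.1 j).union (hE j), fun z hz hzE =>
    h.2.2 z (fun h' => hz (Or.inl h')) fun j h' => hzE j (Or.inl h')⟩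

/-- **Connected sets.** -/
theorem good_comp (σ : K →+* ℝ) (τ : ∀ v, K →+* ℚ_[p v]) {f : MvPolynomial (Fin 2) K}
    (hf : ∀ j, f.degreeOf j ≤ 4) (hs : SmoothN f) {T : Set (Fin 2 → K)} {E : Fin 2 → Set K}
    (hg : Good f T E) {e : K} (he : e ≠ 0) {x : (Fin 2 → ℝ) × ℝ}
    {y : ∀ v, (Fin 2 → ℚ_[p v]) × ℚ_[p v]}
    (hxy : (x, y) ∈ closure (im σ τ (Out (C e * f) T E)))
    {M : Set ((Fin 2 → ℝ) × ℝ)} (hM : IsPreconnected M)
    (hMon : ∀ T ∈ M, OnCover (map σ (C e * f)) T) (hx : x ∈ M) :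
    ∀ x' ∈ M, (x', y) ∈ closure (im σ τ (Out (C e * f) T E)) := by
  classical
  set B : Set K := (fun z : Fin 2 → K => z 0) '' T ∪ ⋃ j, E j with hB
  have hBf : B.Finite := (hg.1.image _).union (Set.finite_iUnion hg.2.1)
  intro x' hx'
  refine closure_mono ?_ (prod_comp h2 h3 h4 σ τ hf hs he hBf (closure_mono ?_ hxy) hM hMon hx x' hx')
  · rintro _ ⟨Q, hQ, rfl⟩
    exact ⟨Q, ⟨hQ.1, hQ.2.1, fun h => hQ.2.2.2 0 (Or.inl ⟨_, h, rfl⟩), fun j h =>
      hQ.2.2.2 j (Or.inr (Set.mem_iUnion.2 ⟨j, h⟩))⟩, rfl⟩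
  · rintro _ ⟨Q, hQ, rfl⟩
    exact ⟨Q, ⟨hQ.1, hQ.2.1, hg.2.2 _ hQ.2.2.1 hQ.2.2.2⟩, rfl⟩

/-- the closure near real points outside the exceptional sets -/
theorem near_cl (σ : K →+* ℝ) (τ : ∀ v, K →+* ℚ_[p v]) {g : MvPolynomial (Fin 2) K}
    {T : Set (Fin 2 → K)} {E : Fin 2 → Set K} (hT : T.Finite) (hE : ∀ j, (E j).Finite)
    {x : (Fin 2 → ℝ) × ℝ} (hx : x.2 ≠ 0) (hxT : ∀ t ∈ T, x.1 ≠ fun k => σ (t k))
    (hxE : ∀ j, ∀ c ∈ E j, x.1 j ≠ σ c) {y : ∀ v, (Fin 2 → ℚ_[p v]) × ℚ_[p v]}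
    (hxy : (x, y) ∈ closure (im σ τ {P | OnCover g P})) :
    (x, y) ∈ closure (im σ τ (Out g T E)) := by
  obtain ⟨N, hN, hxN, hN'⟩ := near_out σ hT hE hx hxT hxE
  rw [mem_closure_iff] at hxy ⊢
  intro U hU hxU
  obtain ⟨_, ⟨hb1, hb2⟩, ⟨P, hP, rfl⟩⟩ := hxy (U ∩ (fun S => S.1) ⁻¹' N)
    (hU.inter (hN.preimage continuous_fst)) ⟨hxU, hxN⟩
  obtain ⟨c1, c2, c3⟩ := hN' P hb2
  exact ⟨_, hb1, P, ⟨hP, c1, c2, c3⟩, rfl⟩

end

section quad

/-- a connected neighbourhood of a point off the branch curve -/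
theorem sheet {g : MvPolynomial (Fin 2) ℝ} {R : (Fin 2 → ℝ) × ℝ} (hR : OnCover g R)
    (hR0 : R.2 ≠ 0) : ∃ (N : Set ((Fin 2 → ℝ) × ℝ)) (δ : ℝ), 0 < δ ∧ IsPreconnected N ∧
      (∀ S ∈ N, OnCover g S) ∧ R ∈ N ∧ ∀ S, OnCover g S → dist R S < δ → S ∈ N ∧ S.2 ≠ 0 := by
  have hR' : R.2 ^ 2 = eval R.1 g := hR
  have hpos : 0 < eval R.1 g := by rw [← hR']; positivity
  have hcont : Continuous fun x : Fin 2 → ℝ => eval x g := continuous_eval _
  obtain ⟨δ, hδ, hball⟩ := Metric.isOpen_iff.mp (isOpen_lt continuous_const hcont) R.1 hpos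
  obtain ⟨s, hs1, hsR⟩ : ∃ s : ℝ, s * s = 1 ∧ 0 < s * R.2 := by
    rcases lt_or_gt_of_ne hR0 with h | h
    · exact ⟨-1, by norm_num, by linarith⟩
    · exact ⟨1, by norm_num, by linarith⟩
  have hs2 : |s| = 1 := by
    have h1 : |s| * |s| = 1 := by rw [← abs_mul, hs1, abs_one]
    nlinarith [abs_nonneg s]
  have key : ∀ S : (Fin 2 → ℝ) × ℝ, OnCover g S → 0 < s * S.2 →
      S = (S.1, s * Real.sqrt (eval S.1 g)) := by
    rintro ⟨a, b⟩ hS hb
    have hS' : b ^ 2 = eval a g := hS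
    have hb : 0 < s * b := hb
    have e1 : b ^ 2 = (s * b) ^ 2 := by linear_combination (-b ^ 2) * hs1
    rw [Prod.mk.injEq]
    refine ⟨rfl, ?_⟩
    change b = s * Real.sqrt (eval a g)
    rw [← hS', e1, Real.sqrt_sq hb.le]
    linear_combination (-b) * hs1
  refine ⟨(fun x => (x, s * Real.sqrt (eval x g))) '' Metric.ball R.1 δ, min δ |R.2|,
    lt_min hδ (abs_pos.2 hR0), ?_, ?_, ?_, ?_⟩
  · refine (convex_ball _ _).isPreconnected.image _ ?_
    exact (continuous_id.prodMk (continuous_const.mul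
      (Real.continuous_sqrt.comp hcont))).continuousOn
  · rintro _ ⟨x, hx, rfl⟩
    change (s * Real.sqrt (eval x g)) ^ 2 = eval x g
    have h1 : 0 < eval x g := hball hx
    rw [mul_pow, Real.sq_sqrt h1.le]
    linear_combination (eval x g) * hs1
  · exact ⟨R.1, Metric.mem_ball_self hδ, (key R hR hsR).symm⟩
  · intro S hS hd
    rw [Prod.dist_eq] at hd
    have hd1 : dist S.1 R.1 < δ := by
      rw [dist_comm]
      exact ((le_max_left _ _).trans_lt hd).trans_le (min_le_left _ _)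
    have hd2 : |R.2 - S.2| < |R.2| := by
      have := ((le_max_right _ _).trans_lt hd).trans_le (min_le_right _ _)
      rwa [Real.dist_eq] at this
    have hsS : 0 < s * S.2 := by
      have h1 : |s * R.2 - s * S.2| < |s * R.2| := by
        rw [← mul_sub, abs_mul, abs_mul, hs2, one_mul, one_mul]
        exact hd2
      rw [abs_of_pos hsR] at h1
      have := (abs_lt.1 h1).2
      linarith
    refine ⟨⟨S.1, hd1, (key S hS hsS).symm⟩, ?_⟩
    intro h0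
    rw [h0, mul_zero] at hsS
    exact lt_irrefl _ hsS

/-- points of the sheet near a point, with general coordinates -/
theorem gen_near {g : MvPolynomial (Fin 2) ℝ} {R : (Fin 2 → ℝ) × ℝ} (hR : OnCover g R)
    (hR0 : R.2 ≠ 0) {V : Set ((Fin 2 → ℝ) × ℝ)} (hV : V ∈ 𝓝 R) {F : Set ℝ} (hF : F.Finite) :
    ∃ S ∈ V, OnCover g S ∧ S.2 ≠ 0 ∧ ∀ k, S.1 k ∉ F := by
  have hR' : R.2 ^ 2 = eval R.1 g := hR
  have hpos : 0 < eval R.1 g := by rw [← hR']; positivity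
  have hcont : Continuous fun x : Fin 2 → ℝ => eval x g := continuous_eval _
  obtain ⟨s, hs1, hsR⟩ : ∃ s : ℝ, s * s = 1 ∧ 0 < s * R.2 := by
    rcases lt_or_gt_of_ne hR0 with h | h
    · exact ⟨-1, by norm_num, by linarith⟩
    · exact ⟨1, by norm_num, by linarith⟩
  set φ : (Fin 2 → ℝ) → (Fin 2 → ℝ) × ℝ := fun x => (x, s * Real.sqrt (eval x g)) with hφ
  have hφc : Continuous φ := continuous_id.prodMk (continuous_const.mul
    (Real.continuous_sqrt.comp hcont))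
  have hφR : φ R.1 = R := by
    have e1 : R.2 ^ 2 = (s * R.2) ^ 2 := by linear_combination (-R.2 ^ 2) * hs1
    refine Prod.ext rfl ?_
    change s * Real.sqrt (eval R.1 g) = R.2
    rw [← hR', e1, Real.sqrt_sq hsR.le]
    linear_combination R.2 * hs1
  have hV' : φ ⁻¹' V ∈ 𝓝 R.1 := hφc.continuousAt.preimage_mem_nhds (by rw [hφR]; exact hV)
  have hP : {x : Fin 2 → ℝ | 0 < eval x g} ∈ 𝓝 R.1 :=
    (isOpen_lt continuous_const hcont).mem_nhds hpos
  obtain ⟨δ, hδ, hball⟩ := Metric.mem_nhds_iff.1 (Filter.inter_mem hV' hP)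
  have hco : ∀ k, ∃ c : ℝ, |c - R.1 k| < δ ∧ c ∉ F := by
    intro k
    by_contra hcon
    push Not at hcon
    refine infinite_of_mem_nhds (R.1 k) (Metric.ball_mem_nhds (R.1 k) hδ) (hF.subset ?_)
    intro c hc
    exact hcon c (by rwa [Metric.mem_ball, Real.dist_eq] at hc)
  choose c hc1 hc2 using hco
  have hc : c ∈ Metric.ball R.1 δ := by
    rw [Metric.mem_ball, dist_pi_lt_iff hδ]
    intro k
    rw [Real.dist_eq]
    exact hc1 k
  obtain ⟨h1, h2⟩ := hball hc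
  have h2 : 0 < eval c g := h2
  refine ⟨φ c, h1, ?_, ?_, hc2⟩
  · change (s * Real.sqrt (eval c g)) ^ 2 = eval c g
    rw [mul_pow, Real.sq_sqrt h2.le]
    linear_combination (eval c g) * hs1
  · change s * Real.sqrt (eval c g) ≠ 0
    refine mul_ne_zero ?_ (Real.sqrt_pos.2 h2).ne'
    rintro rfl
    norm_num at hs1

/-- **Components over quadratic extensions.** -/
theorem quad_comp (K : Type) [Field K] [NumberField K] (f : MvPolynomial (Fin 2) K)
    (hf : ∀ j, f.degreeOf j ≤ 4) (hs : SmoothN f) (ι : Type) [Finite ι] [Nonempty ι] (p : ι → ℕ)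
    [hp : ∀ v, Fact (p v).Prime] (hinj : Function.Injective p) (σ : ∀ v, K →+* ℚ_[p v]) (τ : K →+* ℝ)
    (R : (Fin 2 → ℝ) × ℝ) (hR : OnCover (map τ f) R) (hR0 : R.2 ≠ 0)
    (S : ∀ v, (Fin 2 → ℚ_[p v]) × ℚ_[p v]) (hS : ∀ v, OnCover (map (σ v) f) (S v))
    (hS0 : ∀ v, (S v).2 ≠ 0) {η : ℝ} (hη : 0 < η) :
    ∃ (L : Type) (_ : Field L) (_ : NumberField L) (_ : Algebra K L) (σ' : ∀ v, L →+* ℚ_[p v])
      (τ' : L →+* ℝ) (P : (Fin 2 → L) × L) (U : Set (∀ v, (Fin 2 → ℚ_[p v]) × ℚ_[p v])),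
      Module.finrank K L = 2 ∧ (∀ v, (σ' v).comp (algebraMap K L) = σ v) ∧
      τ'.comp (algebraMap K L) = τ ∧ OnCover (map (algebraMap K L) f) P ∧
      (∀ v, dist (S v) (image (σ' v) P) < η) ∧ dist R (image τ' P) < η ∧
      U ∈ 𝓝 (fun v => image (σ' v) P) ∧
      ∀ M : Set ((Fin 2 → ℝ) × ℝ), IsPreconnected M → (∀ T ∈ M, OnCover (map τ f) T) → R ∈ M →
        ∀ x ∈ M, ∀ y ∈ U, (∀ v, OnCover (map (σ v) f) (y v)) →
          (x, y) ∈ closure (im τ' σ' {P | OnCover (map (algebraMap K L) f) P}) := by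
  classical
  obtain ⟨N, δ, hδ, hN1, hN2, hN3, hN4⟩ := sheet hR hR0
  obtain ⟨L, iL, iN, iA, σ', τ', P, h5, h6, h7, h8, h9, h10, h11, h12⟩ :=
    Pool.Agent.U899.QA.quad_r K f hf hs ι p hinj σ τ R hR hR0 S hS hS0 (ε := min η δ)
      (lt_min hη hδ)
  have hdL : ∀ j, (map (algebraMap K L) f).degreeOf j ≤ 4 := fun j => degreeOf_map_le _ (hf j)
  have hsL : SmoothN (map (algebraMap K L) f) := smb2 K L (algebraMap K L) 2 f hs
  obtain ⟨T, E, hg⟩ := exists_good hdL hsL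
  obtain ⟨V, hV, hV'⟩ := h12
  rw [nhds_prod_eq, Filter.mem_prod_iff] at hV
  obtain ⟨V1, hV1, U, hU, hVU⟩ := hV
  have emap : map τ' (map (algebraMap K L) f) = map τ f := by rw [MvPolynomial.map_map, h7]
  have emap' : ∀ v, map (σ' v) (map (algebraMap K L) f) = map (σ v) f := fun v => by
    rw [MvPolynomial.map_map, h6 v]
  have hPon : OnCover (map τ f) (image τ' P) := by
    have h13 : (τ' P.2) ^ 2 = eval (fun k => τ' (P.1 k)) (map τ' (map (algebraMap K L) f)) :=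
      Pool.Agent.U199.ZR.onX_map' τ' h8
    rw [emap] at h13
    exact h13
  have hPN := hN4 _ hPon (h11.trans_le (min_le_right _ _))
  refine ⟨L, iL, iN, iA, σ', τ', P, U, h5, h6, h7, h8, fun v => (h10 v).trans_le (min_le_left _ _),
    h11.trans_le (min_le_left _ _), hU, fun M hM hMon hRM x hx y hy hyon => ?_⟩
  -- a general real point on the sheet, near `P`
  obtain ⟨δ', hδ', hball⟩ := Metric.mem_nhds_iff.1 hV1
  obtain ⟨N', δ'', hδ'', hN1', hN2', hN3', hN4'⟩ := sheet hPon hPN.2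
  obtain ⟨Q, hQV, hQon, hQ0, hQF⟩ := gen_near hPon hPN.2
    (Filter.inter_mem hV1 (Metric.ball_mem_nhds _ hδ''))
    (F := τ' '' ((fun z : Fin 2 → L => z 0) '' T ∪ ⋃ j, E j))
    (((hg.1.image _).union (Set.finite_iUnion hg.2.1)).image _)
  have hQN' : Q ∈ N' := (hN4' Q hQon (by rw [dist_comm]; exact hQV.2)).1
  have hcl : (Q, y) ∈ closure (im τ' σ' {P | OnCover (map (algebraMap K L) f) P}) := by
    have := hV' (Q, y) (hVU ⟨hQV.1, hy⟩) (by
      change OnCover (map τ' (map (algebraMap K L) f)) Q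
      rw [emap]; exact hQon) (fun v => by
        change OnCover (map (σ' v) (map (algebraMap K L) f)) (y v)
        rw [emap' v]; exact hyon v)
    exact this
  have hcl2 : (Q, y) ∈ closure (im τ' σ' (Out (C (1 : L) * map (algebraMap K L) f) T E)) := by
    rw [C_1, one_mul]
    refine near_cl τ' σ' hg.1 hg.2.1 hQ0 ?_ ?_ hcl
    · intro t ht h13
      exact hQF 0 ⟨t 0, Or.inl ⟨t, ht, rfl⟩, by rw [h13]⟩
    · intro j c hc h13
      exact hQF j ⟨c, Or.inr (Set.mem_iUnion.2 ⟨j, hc⟩), h13.symm⟩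
  have hcon : IsPreconnected (M ∪ N ∪ N') :=
    IsPreconnected.union _ (Or.inr hPN.1) hN3' (IsPreconnected.union _ hRM hN3 hM hN1) hN1'
  have hon3 : ∀ T ∈ M ∪ N ∪ N', OnCover (map τ' (C (1 : L) * map (algebraMap K L) f)) T := by
    rw [C_1, one_mul, emap]
    rintro T ((hT | hT) | hT)
    · exact hMon T hT
    · exact hN2 T hT
    · exact hN2' T hT
  refine closure_mono ?_ (good_comp τ' σ' hdL hsL hg one_ne_zero hcl2 hcon hon3 (Or.inr hQN') x
    (Or.inl (Or.inl hx)))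
  rintro _ ⟨P, hP, rfl⟩
  rw [C_1, one_mul] at hP
  exact ⟨P, hP.1, rfl⟩

end quad

end Pool.Agent.U199.ZS
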