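import Pool.Agent.U199.ZS.H

/-!
# Connected sets of real points: the general argument
-/

set_option autoImplicit false
set_option linter.unusedSectionVars false
set_option linter.unusedVariables false

open MvPolynomial Pool.Agent.Y720.MZ Filter Topology

namespace Pool.Agent.U199.ZS.Gen

open Pool.Agent.Q35.ZC
open Pool.Agent.U199.ZR (rp pr onX_map' bdry)
open Pool.Agent.U199.ZS

variable {K : Type} [Field K] [NumberField K] {ι : Type} [Finite ι] {p : ι → ℕ}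
  [hp : ∀ i, Fact (p i).Prime]

/-- the points where moves begin, on one sheet -/
def Ss (σ : K →+* ℝ) (St : (Fin 2 → K) → Prop) (R : Set ((Fin 2 → K) × K)) (s : ℝ) :
    Set ((Fin 2 → K) × K) :=
  {Q | Q ∈ R ∧ 0 < s * σ Q.2 ∧ St Q.1}

/-- the points where moves begin -/
def S0 (St : (Fin 2 → K) → Prop) (R : Set ((Fin 2 → K) × K)) : Set ((Fin 2 → K) × K) :=
  {Q | Q ∈ R ∧ Q.2 ≠ 0 ∧ St Q.1}

/-- moves in boxes -/
def HB (σ : K →+* ℝ) (τ : ∀ v, K →+* ℚ_[p v]) (g : MvPolynomial (Fin 2) K)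
    (St : (Fin 2 → K) → Prop) (η : ℝ) : Prop :=
  ∀ (x : Fin 2 → ℝ) (δ : ℝ), (∀ b : Fin 2 → ℝ, (∀ k, |b k - x k| < δ) → 0 < eval b (map σ g)) →
    ∀ (z : Fin 2 → K) (w : K), w ≠ 0 → w ^ 2 = eval z g → St z → (∀ k, |σ (z k) - x k| < δ) →
      ∀ y : Fin 2 → ℝ, (∀ k, |y k - x k| < δ) → ∀ ε : ℝ, 0 < ε →
        ∃ z' w', 0 < σ w' * σ w ∧ w' ^ 2 = eval z' g ∧ St z' ∧ (∀ k, |σ (z' k) - y k| < ε) ∧
          Nr τ η z w z' w'

/-- changing the sheet -/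
def HF (σ : K →+* ℝ) (τ : ∀ v, K →+* ℚ_[p v]) (g : MvPolynomial (Fin 2) K)
    (St : (Fin 2 → K) → Prop) (η : ℝ) : Prop :=
  ∀ (x : Fin 2 → ℝ) (δ : ℝ), (∀ b : Fin 2 → ℝ, (∀ k, |b k - x k| < δ) → 0 < eval b (map σ g)) →
    ∀ k : Fin 2, (∀ b : Fin 2 → ℝ, (∀ k, |b k - x k| < δ) →
      ∃ t : ℝ, eval (Function.update b k t) (map σ g) = 0) →
    ∀ (z : Fin 2 → K) (w : K), w ≠ 0 → w ^ 2 = eval z g → St z → (∀ k, |σ (z k) - x k| < δ) →
      ∃ z' w', σ w' * σ w < 0 ∧ w' ^ 2 = eval z' g ∧ St z' ∧ (∀ k, |σ (z' k) - x k| < δ) ∧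
        Nr τ η z w z' w'

section

variable (σ : K →+* ℝ) (τ : ∀ v, K →+* ℚ_[p v]) {g : MvPolynomial (Fin 2) K}
  {St : (Fin 2 → K) → Prop} {η : ℝ} (hB : HB σ τ g St η) (hF : HF σ τ g St η)
  {R : Set ((Fin 2 → K) × K)} (hR : Cn τ η g R)

include hB hF hR

/-- the closure of the projections is open where the polynomial is positive -/
theorem open_at {s : ℝ} {x : Fin 2 → ℝ} (hx : x ∈ closure (pr σ (Ss σ St R s)))
    (hpos : 0 < eval x (map σ g)) : closure (pr σ (Ss σ St R s)) ∈ 𝓝 x := by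
  have hcont : Continuous fun x : Fin 2 → ℝ => eval x (map σ g) := continuous_eval _
  obtain ⟨δ, hδ, hball⟩ := Metric.isOpen_iff.mp (isOpen_lt continuous_const hcont) x hpos
  have hbox : ∀ b : Fin 2 → ℝ, (∀ i, |b i - x i| < δ) → 0 < eval b (map σ g) := by
    intro b hb
    have h1 : b ∈ Metric.ball x δ := by
      rw [Metric.mem_ball, dist_pi_lt_iff hδ]
      intro k
      rw [Real.dist_eq]
      exact hb k
    exact hball h1
  obtain ⟨_, ⟨_, ⟨⟨z, w⟩, ⟨hzR, hw, hst⟩, rfl⟩, rfl⟩, hd⟩ := Metric.mem_closure_iff.mp hx δ hδ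
  have hw0 : w ≠ 0 := by
    rintro rfl
    simp at hw
  have hzb : ∀ k, |σ (z k) - x k| < δ := by
    intro k
    rw [dist_comm, dist_pi_lt_iff hδ] at hd
    have := hd k
    rwa [Real.dist_eq] at this
  refine Filter.mem_of_superset (Metric.ball_mem_nhds x hδ) ?_
  intro y hy
  have hyb : ∀ k, |y k - x k| < δ := by
    intro k
    rw [Metric.mem_ball, dist_pi_lt_iff hδ] at hy
    have := hy k
    rwa [Real.dist_eq] at this
  rw [Metric.mem_closure_iff]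
  intro ε hε
  obtain ⟨z', w', a1, a2, a3, a5, a6⟩ := hB x δ hbox z w hw0 (hR _ hzR).1 hst hzb y
    hyb ε hε
  refine ⟨_, ⟨_, ⟨(z', w'), ⟨(hR _ hzR).2 z' w' a2 a6, sgn a1 hw, a3⟩, rfl⟩, rfl⟩, ?_⟩
  rw [dist_comm, dist_pi_lt_iff hε]
  intro k
  rw [Real.dist_eq]
  exact a5 k

theorem conn_D {s : ℝ} {P : Set (Fin 2 → ℝ)} (hP : IsPreconnected P)
    (hpos : ∀ x ∈ P, 0 < eval x (map σ g))
    (hne : (P ∩ closure (pr σ (Ss σ St R s))).Nonempty) : P ⊆ closure (pr σ (Ss σ St R s)) := by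
  have hop : ∀ x ∈ closure (pr σ (Ss σ St R s)), 0 < eval x (map σ g) →
      x ∈ interior (closure (pr σ (Ss σ St R s))) := fun x hx hp =>
    mem_interior_iff_mem_nhds.2 (open_at σ τ hB hF hR hx hp)
  rcases hP.subset_or_subset isOpen_interior isClosed_closure.isOpen_compl
    (Set.disjoint_compl_right_iff_subset.mpr interior_subset) (fun x hx => by
      by_cases hxD : x ∈ closure (pr σ (Ss σ St R s))
      · exact Or.inl (hop x hxD (hpos x hx))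
      · exact Or.inr hxD) with h | h
  · exact h.trans interior_subset
  · exfalso
    obtain ⟨x, hx1, hx2⟩ := hne
    exact h hx1 (interior_subset (hop _ hx2 (hpos _ hx1)))

omit hB hF in
theorem lift_D {s : ℝ} (hs1 : s * s = 1) {x : Fin 2 → ℝ} {y : ℝ}
    (hx : x ∈ closure (pr σ (Ss σ St R s)))
    (hy : y ^ 2 = eval x (map σ g)) (hsy : 0 ≤ s * y) :
    (x, y) ∈ closure (rp σ (S0 St R)) := by
  have hcont : Continuous fun x : Fin 2 → ℝ => Real.sqrt (eval x (map σ g)) :=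
    Real.continuous_sqrt.comp (continuous_eval _)
  rw [Metric.mem_closure_iff]
  intro ε hε
  obtain ⟨δ, hδ, hδ1⟩ := Metric.continuous_iff.1 hcont x ε hε
  obtain ⟨_, ⟨_, ⟨⟨z, w⟩, ⟨hzR, hw, hst⟩, rfl⟩, rfl⟩, hd⟩ :=
    Metric.mem_closure_iff.1 hx (min ε δ) (lt_min hε hδ)
  have hon : w ^ 2 = eval z g := (hR _ hzR).1
  have hw : 0 < s * σ w := hw
  have hw0 : w ≠ 0 := by
    rintro rfl
    simp at hw
  have hd1 : dist (fun k => σ (z k)) x < min ε δ := by rw [dist_comm]; exact hd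
  have h6 := hδ1 _ (hd1.trans_le (min_le_right _ _))
  have h7 : Real.sqrt (eval (fun k => σ (z k)) (map σ g)) = s * σ w := by
    rw [← onX_map' σ hon]
    have e1 : σ w ^ 2 = (s * σ w) ^ 2 := by
      linear_combination (-σ w ^ 2) * hs1
    rw [e1, Real.sqrt_sq hw.le]
  have h8 : Real.sqrt (eval x (map σ g)) = s * y := by
    have e1 : y ^ 2 = (s * y) ^ 2 := by
      linear_combination (-y ^ 2) * hs1
    rw [← hy, e1, Real.sqrt_sq hsy]
  rw [h7, h8, Real.dist_eq, ← mul_sub, abs_mul] at h6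
  have hs2 : |s| = 1 := by
    have h1 : |s| * |s| = 1 := by rw [← abs_mul, hs1, abs_one]
    nlinarith [abs_nonneg s]
  rw [hs2, one_mul] at h6
  refine ⟨_, ⟨(z, w), ⟨hzR, hw0, hst⟩, rfl⟩, ?_⟩
  rw [Prod.dist_eq, max_lt_iff]
  refine ⟨hd.trans_le (min_le_left _ _), ?_⟩
  rw [dist_comm, Real.dist_eq]
  exact h6

/-- **The closure is open in the real points.** -/
theorem open_cover {T : (Fin 2 → ℝ) × ℝ} (hT : T ∈ closure (rp σ (S0 St R)))
    (hon : OnCover (map σ g) T) (hsm : T.2 ≠ 0 ∨ ∃ k, eval T.1 (pderiv k (map σ g)) ≠ 0) :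
    ∃ N : Set ((Fin 2 → ℝ) × ℝ), IsOpen N ∧ T ∈ N ∧
      ∀ T' ∈ N, OnCover (map σ g) T' → T' ∈ closure (rp σ (S0 St R)) := by
  obtain ⟨x, y⟩ := T
  have hy : y ^ 2 = eval x (map σ g) := hon
  by_cases hy0 : y = 0
  · rw [hy0, zero_pow two_ne_zero] at hy
    obtain ⟨k, hk'⟩ : ∃ k, eval x (pderiv k (map σ g)) ≠ 0 := hsm.resolve_left fun h => h hy0
    obtain ⟨W, hWo, hxW, hW1, hW2⟩ := bdry (map σ g) x hy.symm (k := k) hk'
    obtain ⟨V, hVo, hxV, hV1⟩ := root_near (map σ g) x hy.symm (k := k) hk'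
    -- a point of the set in `W ∩ V`
    have hWV : IsOpen ((fun T : (Fin 2 → ℝ) × ℝ => T.1) ⁻¹' (W ∩ V)) :=
      (hWo.inter hVo).preimage continuous_fst
    obtain ⟨_, hbW, ⟨⟨z, w⟩, hzR, rfl⟩⟩ := mem_closure_iff.1 hT _ hWV ⟨hxW, hxV⟩
    have hbW : (fun k => σ (z k)) ∈ W ∩ V := hbW
    have hw0 : w ≠ 0 := hzR.2.1
    have hon1 : w ^ 2 = eval z g := (hR _ hzR.1).1
    have hb : 0 < eval (fun k => σ (z k)) (map σ g) := by
      rw [← onX_map' σ hon1]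
      have := (map_ne_zero σ).2 hw0
      positivity
    -- the sheet
    obtain ⟨s, hs1, hsw⟩ : ∃ s : ℝ, s * s = 1 ∧ 0 < s * σ w := by
      rcases lt_or_gt_of_ne ((map_ne_zero σ).2 hw0) with h | h
      · exact ⟨-1, by norm_num, by linarith⟩
      · exact ⟨1, by norm_num, by linarith⟩
    -- a point on the other sheet
    obtain ⟨z', w', hz'R, hz'W, hz'pos⟩ : ∃ z' w', (z', w') ∈ Ss σ St R (-s) ∧
        (fun k => σ (z' k)) ∈ W ∧ 0 < eval (fun k => σ (z' k)) (map σ g) := by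
      have hcont : Continuous fun x : Fin 2 → ℝ => eval x (map σ g) := continuous_eval _
      obtain ⟨δ, hδ, hball⟩ := Metric.isOpen_iff.mp
        ((hWo.inter hVo).inter (isOpen_lt continuous_const hcont)) _ ⟨hbW, hb⟩
      have hin : ∀ b : Fin 2 → ℝ, (∀ i, |b i - σ (z i)| < δ) →
          b ∈ (W ∩ V) ∩ {x | 0 < eval x (map σ g)} := by
        intro b hb
        apply hball
        rw [Metric.mem_ball, dist_pi_lt_iff hδ]
        intro k
        rw [Real.dist_eq]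
        exact hb k
      obtain ⟨z', w', a1, a2, a3, a4, a5⟩ := hF (fun k => σ (z k)) δ (fun b hb => (hin b hb).2) k
        (fun b hb => hV1 b (hin b hb).1.2 (hin b hb).2) z w hw0 hon1 hzR.2.2
        (fun k => by simpa using hδ)
      have h5 := hin _ a4
      exact ⟨z', w', ⟨(hR _ hzR.1).2 z' w' a2 a5, sgn' a1 hsw, a3⟩, h5.1.1, h5.2⟩
    have hpos1 : ∀ b ∈ W, 0 < eval b (map σ g) → b ∈ closure (pr σ (Ss σ St R s)) := by
      intro b hb1 hb2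
      obtain ⟨P, p1, p2, p3, p4⟩ := hW1 _ hbW.1 b hb1 hb hb2
      exact conn_D σ τ hB hF hR p1 p4
        ⟨_, p2, subset_closure ⟨_, ⟨(z, w), ⟨hzR.1, hsw, hzR.2.2⟩, rfl⟩, rfl⟩⟩ p3
    have hpos2 : ∀ b ∈ W, 0 < eval b (map σ g) → b ∈ closure (pr σ (Ss σ St R (-s))) := by
      intro b hb1 hb2
      obtain ⟨P, p1, p2, p3, p4⟩ := hW1 _ hz'W b hb1 hz'pos hb2
      exact conn_D σ τ hB hF hR p1 p4
        ⟨_, p2, subset_closure ⟨_, ⟨(z', w'), hz'R, rfl⟩, rfl⟩⟩ p3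
    refine ⟨(fun T => T.1) ⁻¹' W, hWo.preimage continuous_fst, hxW, ?_⟩
    rintro ⟨x', y'⟩ hT' hon'
    have hy' : y' ^ 2 = eval x' (map σ g) := hon'
    have hall : ∀ s' : ℝ, (∀ b ∈ W, 0 < eval b (map σ g) →
        b ∈ closure (pr σ (Ss σ St R s'))) → x' ∈ closure (pr σ (Ss σ St R s')) := by
      intro s' hs'
      rcases (show 0 ≤ eval x' (map σ g) by rw [← hy']; positivity).lt_or_eq with h | h
      · exact hs' _ hT' h
      · have h5 := hW2 x' hT' h.symm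
        refine closure_minimal ?_ isClosed_closure h5
        rintro b ⟨hb1, hb2⟩
        exact hs' b hb1 hb2
    rcases le_total 0 (s * y') with h | h
    · exact lift_D σ τ hR hs1 (hall s hpos1) hy' h
    · exact lift_D σ τ hR (s := -s) (by linarith) (hall (-s) hpos2) hy' (by linarith)
  · have hp' : 0 < eval x (map σ g) := by
      rw [← hy]; positivity
    obtain ⟨s, hs1, hsy⟩ : ∃ s : ℝ, s * s = 1 ∧ 0 < s * y := by
      rcases lt_or_gt_of_ne hy0 with h | h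
      · exact ⟨-1, by norm_num, by linarith⟩
      · exact ⟨1, by norm_num, by linarith⟩
    have hos : IsOpen {T : (Fin 2 → ℝ) × ℝ | 0 < s * T.2} :=
      isOpen_lt continuous_const (continuous_const.mul continuous_snd)
    have hx : x ∈ closure (pr σ (Ss σ St R s)) := by
      rw [mem_closure_iff]
      intro U hU hxU
      obtain ⟨_, ⟨hb1, hb2⟩, ⟨⟨z, w⟩, hzR, rfl⟩⟩ := mem_closure_iff.1 hT _
        ((hU.preimage continuous_fst).inter hos) ⟨hxU, hsy⟩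
      exact ⟨_, hb1, _, ⟨(z, w), ⟨hzR.1, hb2, hzR.2.2⟩, rfl⟩, rfl⟩
    have h5 := open_at σ τ hB hF hR hx hp'
    refine ⟨((fun T => T.1) ⁻¹' interior (closure (pr σ (Ss σ St R s)))) ∩
      {T : (Fin 2 → ℝ) × ℝ | 0 < s * T.2},
      (isOpen_interior.preimage continuous_fst).inter hos, ⟨mem_interior_iff_mem_nhds.2 h5, hsy⟩, ?_⟩
    rintro ⟨x', y'⟩ ⟨hT', hT2⟩ hon'
    have hT2 : 0 < s * y' := hT2
    exact lift_D σ τ hR hs1 (interior_subset hT') hon' hT2.le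

/-- **Connected sets of real points.** -/
theorem comp0 {S : Set ((Fin 2 → ℝ) × ℝ)} (hSc : IsPreconnected S)
    (hSon : ∀ T ∈ S, OnCover (map σ g) T)
    (hSsm : ∀ T ∈ S, T.2 ≠ 0 ∨ ∃ k, eval T.1 (pderiv k (map σ g)) ≠ 0)
    (hne : (S ∩ closure (rp σ (S0 St R))).Nonempty) : S ⊆ closure (rp σ (S0 St R)) := by
  have hloc := fun {T} (hT : T ∈ closure (rp σ (S0 St R))) (hon : OnCover (map σ g) T)
    (hsm : T.2 ≠ 0 ∨ ∃ k, eval T.1 (pderiv k (map σ g)) ≠ 0) =>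
    open_cover σ τ hB hF hR hT hon hsm
  set U : Set ((Fin 2 → ℝ) × ℝ) := ⋃₀ {N | IsOpen N ∧
    ∀ T' ∈ N, OnCover (map σ g) T' → T' ∈ closure (rp σ (S0 St R))} with hU
  have hUo : IsOpen U := isOpen_sUnion fun N hN => hN.1
  rw [isPreconnected_iff_subset_of_disjoint] at hSc
  rcases hSc U (closure (rp σ (S0 St R)))ᶜ hUo isClosed_closure.isOpen_compl (fun T hT => by
      by_cases h : T ∈ closure (rp σ (S0 St R))
      · obtain ⟨N, n1, n2, n3⟩ := hloc h (hSon T hT) (hSsm T hT)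
        exact Or.inl ⟨N, ⟨n1, n3⟩, n2⟩
      · exact Or.inr h) (by
      rw [Set.eq_empty_iff_forall_notMem]
      rintro T ⟨hT, ⟨N, ⟨n1, n3⟩, n2⟩, hT3⟩
      exact hT3 (n3 T n2 (hSon T hT))) with h | h
  · intro T hT
    obtain ⟨N, ⟨n1, n3⟩, n2⟩ := h hT
    exact n3 T n2 (hSon T hT)
  · exfalso
    obtain ⟨T, hT1, hT2⟩ := hne
    obtain ⟨N, n1, n2, n3⟩ := hloc hT2 (hSon T hT1) (hSsm T hT1)
    exact h hT1 (n3 T n2 (hSon T hT1))

end

/-- **Connected sets, in the product.** -/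
theorem prod_comp (σ : K →+* ℝ) (τ : ∀ v, K →+* ℚ_[p v]) {g : MvPolynomial (Fin 2) K}
    {St : (Fin 2 → K) → Prop} (hB : ∀ η : ℝ, 0 < η → HB σ τ g St η)
    (hF : ∀ η : ℝ, 0 < η → HF σ τ g St η)
    {x : (Fin 2 → ℝ) × ℝ} {y : ∀ v, (Fin 2 → ℚ_[p v]) × ℚ_[p v]}
    (hxy : (x, y) ∈ closure (im σ τ {P | OnCover g P ∧ P.2 ≠ 0 ∧ St P.1}))
    {M : Set ((Fin 2 → ℝ) × ℝ)} (hM : IsPreconnected M)
    (hMon : ∀ T ∈ M, OnCover (map σ g) T)
    (hMsm : ∀ T ∈ M, T.2 ≠ 0 ∨ ∃ k, eval T.1 (pderiv k (map σ g)) ≠ 0) (hx : x ∈ M) :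
    ∀ x' ∈ M, (x', y) ∈ closure (im σ τ {P | OnCover g P ∧ P.2 ≠ 0 ∧ St P.1}) := by
  have : Fintype ι := Fintype.ofFinite ι
  intro x' hx'
  rw [Metric.mem_closure_iff]
  intro η hη
  have h5 : x ∈ closure (rp σ (S0 St (Rn τ g y η))) := by
    rw [Metric.mem_closure_iff]
    intro ε hε
    obtain ⟨_, ⟨P, ⟨hP1, hP2, hP3⟩, rfl⟩, hd⟩ := Metric.mem_closure_iff.1 hxy (min ε η)
      (lt_min hε hη)
    rw [Prod.dist_eq, max_lt_iff] at hd
    refine ⟨_, ⟨P, ⟨⟨hP1, ?_⟩, hP2, hP3⟩, rfl⟩, hd.1.trans_le (min_le_left _ _)⟩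
    rw [← dist_im τ P hη, dist_comm]
    exact hd.2.trans_le (min_le_right _ _)
  have h6 := comp0 σ τ (hB η hη) (hF η hη) (cn_rn τ g y η) hM hMon hMsm ⟨x, hx, h5⟩ hx'
  obtain ⟨_, ⟨P, ⟨hP1, hP2, hP3⟩, rfl⟩, hd⟩ := Metric.mem_closure_iff.1 h6 η hη
  refine ⟨_, ⟨P, ⟨hP1.1, hP2, hP3⟩, rfl⟩, ?_⟩
  rw [Prod.dist_eq, max_lt_iff]
  refine ⟨hd, ?_⟩
  rw [dist_comm]
  exact (dist_im τ P hη).2 hP1.2

end Pool.Agent.U199.ZS.Gen
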