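import Pool.Agent.U199.ZS.KG
import Pool.Agent.U199.ZR.I
import Pool.Agent.U199.RS.Typ

/-!
# Products of two quartic polynomials
-/

set_option autoImplicit false
set_option linter.unusedSectionVars false
set_option linter.unusedVariables false

open MvPolynomial Pool.Agent.Y720.MZ Filter Topology

namespace Pool.Agent.U199.ZS.Kum

open Pool.Agent.Q35.ZC
open Pool.Agent.Q35.TT (SmoothN TorN Tor TorT lc af bq tay pq)
open Pool.Agent.U199.ZR (io_tw gi h1 h2 h3 h4)
open Pool.Agent.U199.ZS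

section alg

variable {K : Type} [Field K]

theorem bq_inj [Infinite K] {a b : Fin 5 → K} (h : ∀ t, bq a ![1, t] = bq b ![1, t]) : a = b := by
  have h1 : pq a = pq b := by
    refine Polynomial.funext fun t => ?_
    rw [Pool.Agent.Q121.TT.pq_eval, Pool.Agent.Q121.TT.pq_eval, h]
  have hc : ∀ (a : Fin 5 → K) (k : Fin 5), (pq a).coeff (k : ℕ) = a k := by
    intro a k
    rw [pq, Polynomial.finset_sum_coeff, Finset.sum_eq_single k]
    · rw [Polynomial.coeff_C_mul, Polynomial.coeff_X_pow, if_pos rfl, mul_one]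
    · intro j _ hj
      rw [Polynomial.coeff_C_mul, Polynomial.coeff_X_pow, if_neg, mul_zero]
      intro h
      exact hj (Fin.ext h.symm)
    · intro h
      exact absurd (Finset.mem_univ k) h
  funext k
  rw [← hc a k, h1, hc]

/-- the polynomial with the coefficients `a` in the coordinate `j` -/
noncomputable def pv {n : ℕ} (j : Fin n) (a : Fin 5 → K) : MvPolynomial (Fin n) K :=
  ∑ i : Fin 5, C (a i) * X j ^ (i : ℕ)

theorem eval_pv {n : ℕ} (j : Fin n) (a : Fin 5 → K) (z : Fin n → K) :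
    eval z (pv j a) = bq a ![1, z j] := by
  rw [pv, map_sum]
  simp only [map_mul, map_pow, eval_C, eval_X, Fin.sum_univ_five, bq]
  have e0 : ((0 : Fin 5) : ℕ) = 0 := rfl
  have e1 : ((1 : Fin 5) : ℕ) = 1 := rfl
  have e2 : ((2 : Fin 5) : ℕ) = 2 := rfl
  have e3 : ((3 : Fin 5) : ℕ) = 3 := rfl
  have e4 : ((4 : Fin 5) : ℕ) = 4 := rfl
  rw [e0, e1, e2, e3, e4]
  simp only [Matrix.cons_val_zero, Matrix.cons_val_one]
  ring

theorem map_pv {L : Type} [Field L] (φ : K →+* L) {n : ℕ} (j : Fin n) (a : Fin 5 → K) :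
    map φ (pv j a) = pv j (fun k => φ (a k)) := by
  simp only [pv, map_sum, map_mul, map_pow, map_C, map_X]

theorem deg_pv {n : ℕ} (j k : Fin n) (a : Fin 5 → K) :
    (pv j a).degreeOf k ≤ if k = j then 4 else 0 := by
  classical
  rw [pv]
  refine (degreeOf_sum_le _ _ _).trans (Finset.sup_le fun i _ => ?_)
  refine (degreeOf_C_mul_le _ _ _).trans ((degreeOf_pow_le _ _ _).trans ?_)
  rw [degreeOf_X]
  split_ifs with h
  · have := i.2
    omega
  · omega

/-- the product -/
noncomputable def G (v : Fin 2 → Fin 5 → K) : MvPolynomial (Fin 2) K := pv 0 (v 0) * pv 1 (v 1)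

theorem eval_G (v : Fin 2 → Fin 5 → K) (z : Fin 2 → K) {i j : Fin 2} (hij : i ≠ j) :
    eval z (G v) = bq (v i) ![1, z i] * bq (v j) ![1, z j] := by
  rw [G, map_mul, eval_pv, eval_pv]
  have : (i = 0 ∧ j = 1) ∨ (i = 1 ∧ j = 0) := by
    revert i j
    decide
  rcases this with ⟨rfl, rfl⟩ | ⟨rfl, rfl⟩
  · rfl
  · rw [mul_comm]

theorem map_G {L : Type} [Field L] (φ : K →+* L) (v : Fin 2 → Fin 5 → K) :
    map φ (G v) = G (fun i k => φ (v i k)) := by
  rw [G, map_mul, map_pv, map_pv]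
  rfl

theorem deg_G (v : Fin 2 → Fin 5 → K) : ∀ j, (G v).degreeOf j ≤ 4 := by
  intro j
  refine (degreeOf_mul_le _ _ _).trans ?_
  have a1 := deg_pv (0 : Fin 2) j (v 0)
  have a2 := deg_pv (1 : Fin 2) j (v 1)
  have : j = 0 ∨ j = 1 := by omega
  rcases this with rfl | rfl
  · simp at a1 a2
    omega
  · simp at a1 a2
    omega

theorem lc_G [CharZero K] (v : Fin 2 → Fin 5 → K) (z : Fin 2 → K) {i j : Fin 2} (hij : i ≠ j) :
    lc (G v) (af z) i = fun k => bq (v j) ![1, z j] * v i k := by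
  refine bq_inj fun t => ?_
  rw [Pool.Agent.Q192.TT.bq_lc _ (deg_G v) z i t, eval_G v _ hij, Function.update_self,
    Function.update_of_ne (Ne.symm hij)]
  simp only [bq]
  ring

/-- nonzero discriminant -/
def Dc (a : Fin 5 → K) : Prop := dc (a 0) (a 1) (a 2) (a 3) (a 4) ≠ 0

/-- the torsion coordinates -/
def E (a : Fin 5 → K) : Set K := {s | ∃ N : ℕ, N ≠ 0 ∧ TorT a s N}

theorem dc_smul {c : K} (hc : c ≠ 0) {a : Fin 5 → K} (h : Dc a) :
    dc (c * a 0) (c * a 1) (c * a 2) (c * a 3) (c * a 4) ≠ 0 := by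
  have h4 : dc (c * a 0) (c * a 1) (c * a 2) (c * a 3) (c * a 4) = c ^ 6 *
      dc (a 0) (a 1) (a 2) (a 3) (a 4) := by
    rw [dc, dc, dsc, dsc]
    ring
  rw [h4]
  exact mul_ne_zero (pow_ne_zero _ hc) h

theorem tort_smul [CharZero K] {c : K} {a : Fin 5 → K} {s : K} {N : ℕ}
    (h : TorT (fun k => c * a k) s N) : TorT a s N := by
  have e1 : bq (fun k => c * a k) ![1, s] = c * bq a ![1, s] := by
    simp only [bq]
    ring
  have h' := h
  unfold TorT at h
  rw [e1] at h
  have hne : c * bq a ![1, s] ≠ 0 := h.1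
  have e2 : (fun k => c * bq a ![1, s] * (c * a k)) = fun k => (c * bq a ![1, s] * c) * a k := by
    funext k
    ring
  rw [e2, h2 K a (c * bq a ![1, s] * c) s (c * bq a ![1, s]) N
    (mul_ne_zero hne (left_ne_zero_of_mul hne))] at h
  exact h.2.2

end alg

section num

variable {K : Type} [Field K] [NumberField K]

theorem fin_E {a : Fin 5 → K} (h : Dc a) : (E a).Finite := by
  set f : MvPolynomial (Fin 1) K := pv 0 a with hf
  have hd : ∀ j, f.degreeOf j ≤ 4 := by
    intro j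
    have := deg_pv (0 : Fin 1) j a
    rw [Subsingleton.elim j 0] at this ⊢
    simpa using this
  have hlc : ∀ z : Fin 1 → K, lc f (af z) 0 = a := by
    intro z
    refine bq_inj fun t => ?_
    rw [Pool.Agent.Q192.TT.bq_lc _ hd z 0 t, hf, eval_pv, Function.update_self]
  have hs : SmoothN f := Pool.Agent.U199.RS.smooth_one (by rw [hlc]; exact h)
  have h5 := h1 K 1 f hd hs
  refine (h5.image fun z => z 0).subset ?_
  rintro s ⟨N, hN, hT⟩
  refine ⟨fun _ => s, fun i => ?_, rfl⟩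
  rw [Subsingleton.elim i 0]
  exact ⟨N, hN, by rw [hlc]; exact hT⟩

/-- the class has infinite order outside the torsion coordinates -/
theorem io_G {v : Fin 2 → Fin 5 → K} {e : K} (he : e ≠ 0) {z : Fin 2 → K} {i j : Fin 2}
    (hij : i ≠ j) (hv : Dc (v i)) (hz : z i ∉ E (v i)) :
    ∀ w : K, w ≠ 0 → w ^ 2 = eval z (C e * G v) → IOt (th (C e * G v) (Pi.single i 1) z w) := by
  intro w hw hon
  have hc : bq (v j) ![1, z j] ≠ 0 := by
    intro h0
    rw [map_mul, eval_G v z hij, h0, mul_zero, mul_zero] at hon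
    exact hw (pow_eq_zero_iff two_ne_zero |>.1 hon)
  refine io_tw h2 (deg_G v) he ?_ ?_ w hw hon
  · rintro ⟨N, hN, hT⟩
    rw [lc_G v z hij] at hT
    exact hz ⟨N, hN, tort_smul hT⟩
  · rw [gi (deg_G v), lc_G v z hij]
    exact dc_smul hc hv

variable {ι : Type} [Finite ι] {p : ι → ℕ} [hp : ∀ i, Fact (p i).Prime]

/-- the condition on the points -/
def St (F : Fin 2 → Set K) (z : Fin 2 → K) : Prop := ∀ i, z i ∉ F i

/-- one move -/
theorem turnK (σ : K →+* ℝ) (τ : ∀ v, K →+* ℚ_[p v]) {v : Fin 2 → Fin 5 → K}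
    (hv : ∀ i, Dc (v i)) {F : Fin 2 → Set K} (hF : ∀ i, (F i).Finite) (hEF : ∀ i, E (v i) ⊆ F i)
    {e : K} (he : e ≠ 0) {x : Fin 2 → ℝ} {δ : ℝ}
    (hbox : ∀ b : Fin 2 → ℝ, (∀ k, |b k - x k| < δ) → 0 < eval b (map σ (C e * G v)))
    {z : Fin 2 → K} {w : K} (hw : w ≠ 0) (hon : w ^ 2 = eval z (C e * G v)) (i : Fin 2)
    (hz : St F z) (hzx : ∀ k, |σ (z k) - x k| < δ) {y : ℝ} (hy : |y - x i| < δ)
    {ε : ℝ} (hε : 0 < ε) {ε' : ℝ} (hε' : 0 < ε') :
    ∃ r Z : K, |σ r - y| < ε ∧ 0 < σ Z * σ w ∧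
      Z ^ 2 = eval (Function.update z i r) (C e * G v) ∧ St F (Function.update z i r) ∧
      (∀ k, |σ (Function.update z i r k) - x k| < δ) ∧ Nr τ ε' z w (Function.update z i r) Z := by
  have hd : ∀ j, (C e * G v).degreeOf j ≤ 4 := fun j => (degreeOf_C_mul_le _ j e).trans (deg_G v j)
  obtain ⟨j, hij⟩ : ∃ j : Fin 2, i ≠ j := by
    fin_cases i
    · exact ⟨1, by decide⟩
    · exact ⟨0, by decide⟩
  obtain ⟨r, Z, a1, a2, a3, a4, a5⟩ := line_target σ τ hd hw hon
    (io_G he hij (hv i) fun h => hz i (hEF i h))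
    (x := x i) (hzx i) (fun t ht => hbox _ fun k => by
      by_cases h : k = i
      · subst h
        rw [Function.update_self]
        exact ht
      · rw [Function.update_of_ne h]
        exact hzx k) hy (hF i) (lt_min hε (show 0 < δ - |y - x i| by linarith)) hε'
  refine ⟨r, Z, a1.trans_le (min_le_left _ _), a3, a4, ?_, ?_, a5⟩
  · intro k
    by_cases h : k = i
    · subst h
      rw [Function.update_self]
      exact a2
    · rw [Function.update_of_ne h]
      exact hz k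
  · intro k
    by_cases h : k = i
    · subst h
      rw [Function.update_self]
      have b1 := a1.trans_le (min_le_right _ _)
      have b2 := abs_add_le (σ r - y) (y - x k)
      have b3 : σ r - y + (y - x k) = σ r - x k := by ring
      rw [b3] at b2
      linarith
    · rw [Function.update_of_ne h]
      exact hzx k

theorem hbK (σ : K →+* ℝ) (τ : ∀ v, K →+* ℚ_[p v]) {v : Fin 2 → Fin 5 → K}
    (hv : ∀ i, Dc (v i)) {F : Fin 2 → Set K} (hF : ∀ i, (F i).Finite) (hEF : ∀ i, E (v i) ⊆ F i)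
    {e : K} (he : e ≠ 0) {η : ℝ} (hη : 0 < η) : Gen.HB σ τ (C e * G v) (St F) η := by
  intro x δ hbox z w hw hon hz hzx y hy ε hε
  obtain ⟨r, Z, a1, a3, a4, a5, a6, a7⟩ := turnK σ τ hv hF hEF he hbox hw hon 0 hz hzx (hy 0) hε hη
  obtain ⟨r', Z', c1, c3, c4, c5, c6, c7⟩ := turnK σ τ hv hF hEF he hbox (ne_of_sign a3) a4 1
    a5 a6 (hy 1) hε hη
  refine ⟨_, Z', sign_trans a3 c3, c4, c5, ?_, a7.trans c7⟩
  intro k
  have : k = 0 ∨ k = 1 := by omega
  rcases this with rfl | rfl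
  · rw [Function.update_of_ne (by decide), Function.update_self]
    exact a1
  · rw [Function.update_self]
    exact c1

theorem hfK (σ : K →+* ℝ) (τ : ∀ v, K →+* ℚ_[p v]) {v : Fin 2 → Fin 5 → K}
    (hv : ∀ i, Dc (v i)) {F : Fin 2 → Set K} (hF : ∀ i, (F i).Finite) (hEF : ∀ i, E (v i) ⊆ F i)
    {e : K} (he : e ≠ 0) {η : ℝ} (hη : 0 < η) : Gen.HF σ τ (C e * G v) (St F) η := by
  intro x δ hbox k hroot z w hw hon hz hzx
  have hd : ∀ j, (C e * G v).degreeOf j ≤ 4 := fun j => (degreeOf_C_mul_le _ j e).trans (deg_G v j)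
  obtain ⟨j, hkj⟩ : ∃ j : Fin 2, k ≠ j := by
    fin_cases k
    · exact ⟨1, by decide⟩
    · exact ⟨0, by decide⟩
  obtain ⟨t, ht⟩ := hroot _ hzx
  obtain ⟨r, Z, a1, a2, a3, a4, a5⟩ := line_flip σ τ hd hw hon
    (io_G he hkj (hv k) fun h => hz k (hEF k h)) ht (hF k)
    (ε := min η (δ - |σ (z k) - x k|)) (lt_min hη (by have := hzx k; linarith))
  refine ⟨_, Z, a2, a4, ?_, ?_, a5.mono (min_le_left _ _)⟩
  · intro l
    by_cases h : l = k
    · subst h
      rw [Function.update_self]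
      exact a3
    · rw [Function.update_of_ne h]
      exact hz l
  · intro l
    by_cases h : l = k
    · subst h
      rw [Function.update_self]
      have b1 := a1.trans_le (min_le_right _ _)
      have b2 := abs_add_le (σ r - σ (z l)) (σ (z l) - x l)
      have b3 : σ r - σ (z l) + (σ (z l) - x l) = σ r - x l := by ring
      rw [b3] at b2
      linarith
    · rw [Function.update_of_ne h]
      exact hzx l

end num

end Pool.Agent.U199.ZS.Kum
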