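import Pool.Agent.U199.ZS.KK
import Pool.Agent.U899.QA.Main

/-!
# Values which are not squares (after `Pool.Agent.U899.QA.nsq`, for general polynomials)
-/

set_option autoImplicit false
set_option linter.unusedSectionVars false
set_option linter.unusedVariables false

open MvPolynomial Pool.Agent.Y720.MZ Filter Topology

namespace Pool.Agent.U199.ZS.Kum

open Pool.Agent.Q35.TT Pool.Agent.Q35.TB Pool.Agent.Results.MP_ed3816_nt.OpenAwayFromTorsion
open Pool.Agent.Q222.TT.Opn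
open Pool.Agent.U899.QA (not_sq genus_shift coeff_one_ne line_eval)

/-- **Values which are not squares.** -/
theorem nsq' (K : Type) [Field K] [NumberField K] (f : MvPolynomial (Fin 2) K)
    (hf : ∀ j, f.degreeOf j ≤ 4) (hex : ∃ z0 : Fin 2 → K, GenusOne (line f z0 0)) (S : Finset ℕ) :
    ∃ (l : ℕ) (_ : Fact l.Prime), l ∉ S ∧ ∃ (σ : K →+* ℚ_[l]) (y : Fin 2 → ℚ_[l]) (δ : ℝ), 0 < δ ∧
      ∀ z : Fin 2 → K, (∀ j, ‖σ (z j) - y j‖ < δ) → ¬ IsSquare (eval z f) := by
  classical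
  obtain ⟨z0, hz0⟩ := hex
  -- a zero over the algebraic closure
  have hch : CharZero (AlgebraicClosure K) := charZero_of_injective_algebraMap
    (algebraMap K (AlgebraicClosure K)).injective
  have hdeg : (line f z0 0).degree ≠ 0 := by
    intro hd
    have hnd : (line f z0 0).natDegree = 0 := Polynomial.natDegree_eq_of_degree_eq_some hd
    apply hz0
    have hc : ∀ k : ℕ, 0 < k → (line f z0 0).coeff k = 0 := fun k hk =>
      Polynomial.coeff_eq_zero_of_natDegree_lt (by omega)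
    simp only [jacobian, WeierstrassCurve.Δ, WeierstrassCurve.b₂, WeierstrassCurve.b₄, WeierstrassCurve.b₆,
      WeierstrassCurve.b₈, hc 1 (by norm_num), hc 2 (by norm_num), hc 3 (by norm_num), hc 4 (by norm_num)]
    ring
  obtain ⟨t0, ht0⟩ := IsAlgClosed.exists_aeval_eq_zero (AlgebraicClosure K) (line f z0 0) hdeg
  -- a square root which excludes the primes of `S`
  obtain ⟨m, hm⟩ : ∃ m : ℕ, m = ∏ p ∈ S.filter Nat.Prime, p := ⟨_, rfl⟩
  obtain ⟨s, hs2⟩ := IsAlgClosed.exists_pow_nat_eq (m : AlgebraicClosure K) (n := 2) (by norm_num)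
  obtain ⟨M, hM⟩ : ∃ M : IntermediateField K (AlgebraicClosure K),
    M = IntermediateField.adjoin K ({t0, s} : Set (AlgebraicClosure K)) := ⟨_, rfl⟩
  have hfd : FiniteDimensional K M := by
    rw [hM]
    exact IntermediateField.finiteDimensional_adjoin fun x _ =>
      (Algebra.IsAlgebraic.isAlgebraic (R := K) x).isIntegral
  have hMt : t0 ∈ M := by rw [hM]; exact IntermediateField.subset_adjoin _ _ (by simp)
  have hMs : s ∈ M := by rw [hM]; exact IntermediateField.subset_adjoin _ _ (by simp)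
  have hnf : NumberField M :=
    { to_charZero := charZero_of_injective_algebraMap (algebraMap K M).injective
      to_finiteDimensional := FiniteDimensional.trans ℚ K M }
  obtain ⟨l, hl, ⟨θ⟩⟩ := Pool.Agent.Y742.GG.exists_emb_fg M (Pool.Agent.Y742.GG.fg_of_numberField M)
  have hlS : l ∉ S := by
    intro hlS
    have h1 : θ ⟨s, hMs⟩ ^ 2 = ((m : ℕ) : ℚ_[l]) := by
      rw [← map_pow, ← map_natCast θ m]
      congr 1
      exact Subtype.ext (by rw [SubmonoidClass.coe_pow]; simpa using hs2)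
    have h2 : ‖((m : ℕ) : ℚ_[l])‖ = ‖((l : ℚ_[l]) ^ (2 * 0 + 1))‖ := by
      have h3 : m = l * ∏ p ∈ (S.filter Nat.Prime).erase l, p := by
        rw [hm, Finset.mul_prod_erase (S.filter Nat.Prime) (fun p => p)
          (Finset.mem_filter.2 ⟨hlS, hl.out⟩)]
      have h4 : ‖((∏ p ∈ (S.filter Nat.Prime).erase l, p : ℕ) : ℚ_[l])‖ = 1 := by
        rw [Padic.norm_natCast_eq_one_iff]
        refine Nat.Coprime.prod_right fun p hp => ?_
        rw [Finset.mem_erase, Finset.mem_filter] at hp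
        exact (Nat.coprime_primes hl.out hp.2.2).2 (Ne.symm hp.1)
      rw [h3, Nat.cast_mul, norm_mul, h4, mul_one]
      norm_num
    exact not_sq (by rw [h1, h2])
  -- the point over `ℚ_l`
  obtain ⟨σ, hσ⟩ : ∃ σ : K →+* ℚ_[l], σ = θ.comp (algebraMap K M) := ⟨_, rfl⟩
  obtain ⟨g, hg⟩ : ∃ g : MvPolynomial (Fin 2) ℚ_[l], g = map σ f := ⟨_, rfl⟩
  have hgd : ∀ j, g.degreeOf j ≤ 4 := fun j => by rw [hg]; exact degreeOf_map_le _ (hf j)
  obtain ⟨z1, hz1⟩ : ∃ z1 : Fin 2 → ℚ_[l], z1 = fun j => σ (z0 j) := ⟨_, rfl⟩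
  obtain ⟨z2, hz2⟩ : ∃ z2 : Fin 2 → ℚ_[l], z2 = z1 + θ ⟨t0, hMt⟩ • (Pi.single 0 1 : Fin 2 → ℚ_[l]) :=
    ⟨_, rfl⟩
  have hG1 : GenusOne (line g z1 0) := by
    rw [hg, hz1, line_map σ f z0 0]
    exact genus_map σ hz0
  have hG2 : GenusOne (line g z2 0) := by
    refine genus_shift hgd (fun j hj => ?_) hG1
    rw [hz2]
    simp [Pi.single_eq_of_ne hj]
  have hz2g : eval z2 g = 0 := by
    rw [hz2, ← line_eval, hg, hz1, line_map σ f z0 0, Polynomial.eval_map, hσ]
    have h1 : Polynomial.eval₂ (algebraMap K M) ⟨t0, hMt⟩ (line f z0 0) = 0 := by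
      apply Subtype.ext
      have h2 := ht0
      rw [Polynomial.aeval_def] at h2
      have h3 := Polynomial.hom_eval₂ (line f z0 0) (algebraMap K M) (algebraMap M (AlgebraicClosure K))
        ⟨t0, hMt⟩
      rw [← IsScalarTower.algebraMap_eq] at h3
      exact h3.trans h2
    rw [← Polynomial.hom_eval₂, h1, map_zero]
  have hc0 : (line g z2 0).coeff 0 = 0 := by
    rw [Polynomial.coeff_zero_eq_eval_zero, line_eval, zero_smul, add_zero, hz2g]
  have hc1 := coeff_one_ne hG2 hc0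
  have hstrict := Polynomial.hasStrictDerivAt (line g z2 0) (0 : ℚ_[l])
  have hd1 : Polynomial.eval 0 (Polynomial.derivative (line g z2 0)) ≠ 0 := by
    rw [← Polynomial.coeff_zero_eq_eval_zero, Polynomial.coeff_derivative]
    simpa using hc1
  have hmap := hstrict.map_nhds_eq hd1
  have h00 : Polynomial.eval 0 (line g z2 0) = 0 := by
    rw [← Polynomial.coeff_zero_eq_eval_zero, hc0]
  rw [h00] at hmap
  have hrange : Set.range (fun x => Polynomial.eval x (line g z2 0)) ∈ 𝓝 (0 : ℚ_[l]) := by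
    rw [← hmap]
    exact Filter.mem_map.2 (by
      have : (fun x => Polynomial.eval x (line g z2 0)) ⁻¹'
        Set.range (fun x => Polynomial.eval x (line g z2 0)) = Set.univ := by
        ext x; simp
      rw [this]
      exact Filter.univ_mem)
  obtain ⟨ρ, hρ, hball⟩ := Metric.mem_nhds_iff.1 hrange
  have hlim : Tendsto (fun k : ℕ => ‖((l : ℚ_[l]) ^ (2 * k + 1))‖) atTop (𝓝 0) := by
    have h1 : ‖(l : ℚ_[l])‖ < 1 := Padic.norm_p_lt_one
    have h2 : Tendsto (fun n : ℕ => ‖(l : ℚ_[l])‖ ^ n) atTop (𝓝 0) :=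
      tendsto_pow_atTop_nhds_zero_of_lt_one (norm_nonneg _) h1
    have h3 : Tendsto (fun k : ℕ => 2 * k + 1) atTop atTop :=
      tendsto_atTop_mono (fun k => by simp only [id]; omega) tendsto_id
    refine (h2.comp h3).congr fun k => ?_
    rw [Function.comp_apply, norm_pow]
  obtain ⟨k, hk⟩ := (hlim.eventually (gt_mem_nhds hρ)).exists
  obtain ⟨u, hu⟩ := hball (by
    rw [Metric.mem_ball, dist_zero_right]
    exact hk : ((l : ℚ_[l]) ^ (2 * k + 1)) ∈ Metric.ball 0 ρ)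
  simp only at hu
  obtain ⟨y, hy⟩ : ∃ y : Fin 2 → ℚ_[l], y = z2 + u • (Pi.single 0 1 : Fin 2 → ℚ_[l]) := ⟨_, rfl⟩
  have hyg : eval y g = (l : ℚ_[l]) ^ (2 * k + 1) := by rw [hy, ← line_eval, hu]
  have hl0 : (l : ℚ_[l]) ≠ 0 := by exact_mod_cast hl.out.ne_zero
  have hpos : 0 < ‖((l : ℚ_[l]) ^ (2 * k + 1))‖ := norm_pos_iff.2 (pow_ne_zero _ hl0)
  have hcont : Continuous fun x : Fin 2 → ℚ_[l] => eval x g := MvPolynomial.continuous_eval g
  obtain ⟨δ, hδ, hδ2⟩ := Metric.continuous_iff.1 hcont y _ hpos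
  refine ⟨l, hl, hlS, σ, y, δ, hδ, fun z hz hsq => ?_⟩
  obtain ⟨b, hb⟩ := hsq
  have h1 : dist (fun j => σ (z j)) y < δ := (dist_pi_lt_iff hδ).2 fun j => by
    rw [dist_eq_norm]; exact hz j
  have h2 := hδ2 _ h1
  have h3 : eval (fun j => σ (z j)) g = σ b ^ 2 := by
    rw [hg, eval_map, show (fun j => σ (z j)) = σ ∘ z from rfl, ← eval₂_comp σ z f, hb, map_mul, pow_two]
  rw [h3, hyg, dist_eq_norm] at h2
  have h4 : ‖σ b ^ 2‖ = ‖((l : ℚ_[l]) ^ (2 * k + 1))‖ := by
    by_contra hne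
    have h5 := Padic.add_eq_max_of_ne (q := σ b ^ 2 - (l : ℚ_[l]) ^ (2 * k + 1))
      (r := (l : ℚ_[l]) ^ (2 * k + 1)) h2.ne
    rw [sub_add_cancel, max_eq_right h2.le] at h5
    exact hne h5
  exact not_sq h4

end Pool.Agent.U199.ZS.Kum
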