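import Pool.Agent.U199.ZS.KN
import Pool.Agent.U199.ZS.I

/-!
# Kummer surfaces `w² = e f(x) g(y)`: the theorems
-/

set_option autoImplicit false
set_option linter.unusedSectionVars false
set_option linter.unusedVariables false

open MvPolynomial Pool.Agent.Y720.MZ Filter Topology

namespace Pool.Agent.U199.ZS.Kum

open Pool.Agent.Results.MP_ed3816_nt.OpenAwayFromTorsion
open Pool.Agent.Q35.TT (SmoothN TorN Tor TorT lc af bq tay)
open Pool.Agent.Q222.TT.Opn (line_twist genus_twist moves_map line_map genus_map)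
open Pool.Agent.U199.ZR (h2 gi)
open Pool.Agent.U199.ZS

section

variable {K : Type} [Field K] [NumberField K]

/-- smooth real points -/
def Sm (g : MvPolynomial (Fin 2) ℝ) (S : (Fin 2 → ℝ) × ℝ) : Prop :=
  S.2 ≠ 0 ∨ ∃ k, eval S.1 (pderiv k g) ≠ 0

/-- the points outside the exceptional coordinates -/
def OutK (g : MvPolynomial (Fin 2) K) (F : Fin 2 → Set K) : Set ((Fin 2 → K) × K) :=
  {P | OnCover g P ∧ P.2 ≠ 0 ∧ ∀ i, P.1 i ∉ F i}

theorem genusK {v : Fin 2 → Fin 5 → K} {z : Fin 2 → K} {i j : Fin 2} (hij : i ≠ j)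
    (hv : Dc (v i)) (hc : bq (v j) ![1, z j] ≠ 0) : GenusOne (line (G v) z i) := by
  have h5 := (gi (deg_G v) z i).2 (by
    rw [lc_G v z hij]
    exact dc_smul hc hv)
  exact h5

variable {ι : Type} [Finite ι] {p : ι → ℕ} [hp : ∀ i, Fact (p i).Prime]

/-- **Connected sets.** -/
theorem compK (τ : K →+* ℝ) (σ : ∀ v, K →+* ℚ_[p v]) {v : Fin 2 → Fin 5 → K}
    (hv : ∀ i, Dc (v i)) {F : Fin 2 → Set K} (hF : ∀ i, (F i).Finite) (hEF : ∀ i, E (v i) ⊆ F i)
    {e : K} (he : e ≠ 0) {x : (Fin 2 → ℝ) × ℝ} {y : ∀ v, (Fin 2 → ℚ_[p v]) × ℚ_[p v]}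
    (hxy : (x, y) ∈ closure (im τ σ (OutK (C e * G v) F)))
    {M : Set ((Fin 2 → ℝ) × ℝ)} (hM : IsPreconnected M)
    (hMon : ∀ T ∈ M, OnCover (map τ (C e * G v)) T) (hMsm : ∀ T ∈ M, Sm (map τ (C e * G v)) T)
    (hx : x ∈ M) : ∀ x' ∈ M, (x', y) ∈ closure (im τ σ (OutK (C e * G v) F)) :=
  Gen.prod_comp τ σ (fun η hη => hbK τ σ hv hF hEF he hη) (fun η hη => hfK τ σ hv hF hEF he hη)
    hxy hM hMon hMsm hx

/-- **Openness.** -/
theorem opnK [Nonempty ι] (hinj : Function.Injective p) (τ : K →+* ℝ) (σ : ∀ v, K →+* ℚ_[p v])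
    {v : Fin 2 → Fin 5 → K} (hv : ∀ i, Dc (v i)) {e : K} (he : e ≠ 0) {z : Fin 2 → K} {w : K}
    (hw : w ≠ 0) (hon : w ^ 2 = eval z (C e * G v)) (hz : ∀ i, z i ∉ E (v i)) :
    OpenAtReal (C e * G v) σ τ (image τ (z, w), fun v => image (σ v) (z, w)) := by
  have hg : ∀ j, (C e * G v).degreeOf j ≤ 4 := fun j =>
    (degreeOf_C_mul_le _ j e).trans (deg_G v j)
  have hother : ∀ i : Fin 2, ∃ j, i ≠ j := by
    intro i
    fin_cases i
    · exact ⟨1, by decide⟩
    · exact ⟨0, by decide⟩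
  have hG' : ∀ i, GenusOne (line (C e * G v) z i) := by
    intro i
    obtain ⟨j, hij⟩ := hother i
    rw [line_twist]
    refine genus_twist he (genusK hij (hv i) ?_)
    intro h0
    rw [map_mul, eval_G v z hij, h0, mul_zero, mul_zero] at hon
    exact hw (pow_eq_zero_iff two_ne_zero |>.1 hon)
  have hI : ∀ i, ∀ N : ℕ, N ≠ 0 → ¬ Tor (lc (C e * G v) (af z) i) (z i) w N := by
    intro i N hN h5
    obtain ⟨j, hij⟩ := hother i
    rw [Pool.Agent.Q190.TT.lc_smul (G v) e he, h2 K _ e _ _ _ he] at h5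
    have h6 := h5.2.2
    rw [lc_G v z hij] at h6
    exact hz i ⟨N, hN, tort_smul h6⟩
  have hon' : OnCover (C e * G v) (z, w) := hon
  refine ((Pool.Agent.Results.MP_ed3816_nt.OpenAwayFromTorsion.result).1 K 2 (C e * G v) hg ι p
      hinj σ).2 τ (image τ (z, w), fun v => image (σ v) (z, w)) (subset_closure ⟨(z, w), hon', rfl⟩)
      ?_ (fun u => ?_) fun j => ⟨j, ⟨?_, Or.inl rfl⟩, fun u => ?_⟩
  · exact (map_ne_zero τ).2 hw
  · exact (map_ne_zero (σ u)).2 hw
  · change GenusOne (line (map τ (C e * G v)) (fun j => τ (z j)) j)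
    rw [line_map]
    exact genus_map τ (hG' j)
  · exact ⟨moves_map (σ u) hg hw hon (hG' j) (hI j), Or.inl rfl⟩

/-- near a real point outside the exceptional coordinates -/
theorem near_clK (τ : K →+* ℝ) (σ : ∀ v, K →+* ℚ_[p v]) {g : MvPolynomial (Fin 2) K}
    {F : Fin 2 → Set K} (hF : ∀ i, (F i).Finite) {x : (Fin 2 → ℝ) × ℝ} (hx : x.2 ≠ 0)
    (hxF : ∀ j, ∀ c ∈ F j, x.1 j ≠ τ c) {y : ∀ v, (Fin 2 → ℚ_[p v]) × ℚ_[p v]}
    (hxy : (x, y) ∈ closure (im τ σ {P | OnCover g P})) :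
    (x, y) ∈ closure (im τ σ (OutK g F)) := by
  refine closure_mono ?_ (near_cl τ σ (T := ∅) Set.finite_empty hF hx (by simp) hxF hxy)
  rintro _ ⟨P, hP, rfl⟩
  exact ⟨P, ⟨hP.1, hP.2.1, hP.2.2.2⟩, rfl⟩

/-- **The product of the component and a neighbourhood.** -/
theorem nearK [Nonempty ι] (hinj : Function.Injective p) (τ : K →+* ℝ) (σ : ∀ v, K →+* ℚ_[p v])
    {v : Fin 2 → Fin 5 → K} (hv : ∀ i, Dc (v i)) {F : Fin 2 → Set K} (hF : ∀ i, (F i).Finite)
    (hEF : ∀ i, E (v i) ⊆ F i) {e : K} (he : e ≠ 0) {P : (Fin 2 → K) × K}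
    (hP : P ∈ OutK (C e * G v) F) :
    ∃ U ∈ 𝓝 (fun v => image (σ v) P), ∀ M : Set ((Fin 2 → ℝ) × ℝ), IsPreconnected M →
      (∀ T ∈ M, OnCover (map τ (C e * G v)) T) → (∀ T ∈ M, Sm (map τ (C e * G v)) T) →
      image τ P ∈ M → ∀ x ∈ M, ∀ y ∈ U, (∀ u, OnCover (map (σ u) (C e * G v)) (y u)) →
        (x, y) ∈ closure (im τ σ (OutK (C e * G v) F)) := by
  obtain ⟨V, hV, hV'⟩ := opnK hinj τ σ hv he hP.2.1 hP.1 fun i h => hP.2.2 i (hEF i h)
  refine ⟨{y | (image τ P, y) ∈ V}, ?_, ?_⟩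
  · have hc : Continuous fun y : ∀ v, (Fin 2 → ℚ_[p v]) × ℚ_[p v] => (image τ P, y) :=
      continuous_const.prodMk continuous_id
    exact hc.continuousAt.preimage_mem_nhds hV
  · intro M hM hMon hMsm hPM x hx y hy hyon
    refine compK τ σ hv hF hEF he (x := image τ P) (y := y) ?_ hM hMon hMsm hPM x hx
    refine near_clK τ σ hF ((map_ne_zero τ).2 hP.2.1) ?_ (hV' _ hy (hMon _ hPM) hyon)
    intro j c hc h
    apply hP.2.2 j
    have : P.1 j = c := τ.injective h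
    rw [this]
    exact hc

end

/-- a connected neighbourhood of a point off the branch curve -/
theorem sheet' {g : MvPolynomial (Fin 2) ℝ} {R : (Fin 2 → ℝ) × ℝ} (hR : OnCover g R)
    (hR0 : R.2 ≠ 0) : ∃ (N : Set ((Fin 2 → ℝ) × ℝ)) (δ : ℝ), 0 < δ ∧ IsPreconnected N ∧
      (∀ S ∈ N, OnCover g S) ∧ R ∈ N ∧ (∀ S, OnCover g S → dist R S < δ → S ∈ N ∧ S.2 ≠ 0) ∧ ∀ S ∈ N, S.2 ≠ 0 := by
  have hR' : R.2 ^ 2 = eval R.1 g := hR
  have hpos : 0 < eval R.1 g := by rw [← hR']; positivity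
  have hcont : Continuous fun x : Fin 2 → ℝ => eval x g := continuous_eval _
  obtain ⟨δ, hδ, hball⟩ := Metric.isOpen_iff.mp (isOpen_lt continuous_const hcont) R.1 hpos
  obtain ⟨s, hs1, hsR⟩ : ∃ s : ℝ, s * s = 1 ∧ 0 < s * R.2 := by
    rcases lt_or_gt_of_ne hR0 with h | h
    · exact ⟨-1, by norm_num, by linarith⟩
    · exact ⟨1, by norm_num, by linarith⟩
  have hs2 : |s| = 1 := by
    have h1 : |s| * |s| = 1 := by rw [← abs_mul, hs1, abs_one]
    nlinarith [abs_nonneg s]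
  have key : ∀ S : (Fin 2 → ℝ) × ℝ, OnCover g S → 0 < s * S.2 →
      S = (S.1, s * Real.sqrt (eval S.1 g)) := by
    rintro ⟨a, b⟩ hS hb
    have hS' : b ^ 2 = eval a g := hS
    have hb : 0 < s * b := hb
    have e1 : b ^ 2 = (s * b) ^ 2 := by linear_combination (-b ^ 2) * hs1
    rw [Prod.mk.injEq]
    refine ⟨rfl, ?_⟩
    change b = s * Real.sqrt (eval a g)
    rw [← hS', e1, Real.sqrt_sq hb.le]
    linear_combination (-b) * hs1
  refine ⟨(fun x => (x, s * Real.sqrt (eval x g))) '' Metric.ball R.1 δ, min δ |R.2|,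
    lt_min hδ (abs_pos.2 hR0), ?_, ?_, ?_, ?_, ?_⟩
  · refine (convex_ball _ _).isPreconnected.image _ ?_
    exact (continuous_id.prodMk (continuous_const.mul
      (Real.continuous_sqrt.comp hcont))).continuousOn
  · rintro _ ⟨x, hx, rfl⟩
    change (s * Real.sqrt (eval x g)) ^ 2 = eval x g
    have h1 : 0 < eval x g := hball hx
    rw [mul_pow, Real.sq_sqrt h1.le]
    linear_combination (eval x g) * hs1
  · exact ⟨R.1, Metric.mem_ball_self hδ, (key R hR hsR).symm⟩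
  · intro S hS hd
    rw [Prod.dist_eq] at hd
    have hd1 : dist S.1 R.1 < δ := by
      rw [dist_comm]
      exact ((le_max_left _ _).trans_lt hd).trans_le (min_le_left _ _)
    have hd2 : |R.2 - S.2| < |R.2| := by
      have := ((le_max_right _ _).trans_lt hd).trans_le (min_le_right _ _)
      rwa [Real.dist_eq] at this
    have hsS : 0 < s * S.2 := by
      have h1 : |s * R.2 - s * S.2| < |s * R.2| := by
        rw [← mul_sub, abs_mul, abs_mul, hs2, one_mul, one_mul]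
        exact hd2
      rw [abs_of_pos hsR] at h1
      have := (abs_lt.1 h1).2
      linarith
    refine ⟨⟨S.1, hd1, (key S hS hsS).symm⟩, ?_⟩
    intro h0
    rw [h0, mul_zero] at hsS
    exact lt_irrefl _ hsS
  · rintro _ ⟨x, hx, rfl⟩
    have h1 : 0 < eval x g := hball hx
    have h2 : 0 < Real.sqrt (eval x g) := Real.sqrt_pos.2 h1
    have h3 : s ≠ 0 := by
      rintro rfl
      norm_num at hs1
    exact mul_ne_zero h3 h2.ne'

/-- **Quadratic extensions.** -/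
theorem quadK (K : Type) [Field K] [NumberField K] {v : Fin 2 → Fin 5 → K} (hv : ∀ i, Dc (v i))
    (ι : Type) [Finite ι] [Nonempty ι] (p : ι → ℕ) [hp : ∀ v, Fact (p v).Prime]
    (hinj : Function.Injective p) (σ : ∀ v, K →+* ℚ_[p v]) (τ : K →+* ℝ)
    (R : (Fin 2 → ℝ) × ℝ) (hR : OnCover (map τ (G v)) R) (hR0 : R.2 ≠ 0)
    (S : ∀ v, (Fin 2 → ℚ_[p v]) × ℚ_[p v]) (hS : ∀ u, OnCover (map (σ u) (G v)) (S u))
    (hS0 : ∀ u, (S u).2 ≠ 0) {η : ℝ} (hη : 0 < η) :
    ∃ (L : Type) (_ : Field L) (_ : NumberField L) (_ : Algebra K L) (σ' : ∀ v, L →+* ℚ_[p v])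
      (τ' : L →+* ℝ) (P : (Fin 2 → L) × L) (U : Set (∀ v, (Fin 2 → ℚ_[p v]) × ℚ_[p v])),
      Module.finrank K L = 2 ∧ (∀ v, (σ' v).comp (algebraMap K L) = σ v) ∧
      τ'.comp (algebraMap K L) = τ ∧ OnCover (map (algebraMap K L) (G v)) P ∧
      (∀ v, dist (S v) (image (σ' v) P) < η) ∧ dist R (image τ' P) < η ∧
      U ∈ 𝓝 (fun v => image (σ' v) P) ∧
      ∀ M : Set ((Fin 2 → ℝ) × ℝ), IsPreconnected M → (∀ T ∈ M, OnCover (map τ (G v)) T) →
        (∀ T ∈ M, Sm (map τ (G v)) T) → R ∈ M →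
        ∀ x ∈ M, ∀ y ∈ U, (∀ u, OnCover (map (σ u) (G v)) (y u)) →
          (x, y) ∈ closure (im τ' σ' {P | OnCover (map (algebraMap K L) (G v)) P}) := by
  classical
  obtain ⟨N, δ₀, hδ₀, hN1, hN2, hN3, hN4, hN5⟩ := sheet' hR hR0
  obtain ⟨ε, hε0, hεη, hεδ⟩ : ∃ ε : ℝ, 0 < ε ∧ ε ≤ η ∧ ε ≤ δ₀ :=
    ⟨min η δ₀, lt_min hη hδ₀, min_le_left _ _, min_le_right _ _⟩
  -- a line of genus one
  have hex : ∃ z0 : Fin 2 → K, GenusOne (line (G v) z0 0) := by
    have hfin : {t : K | bq (v 1) ![1, t] = 0}.Finite := by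
      have h5 : Pool.Agent.Q35.TT.pq (v 1) ≠ 0 := by
        intro h0
        have h6 : v 1 = 0 := bq_inj fun t => by
          rw [← Pool.Agent.Q121.TT.pq_eval, h0, Polynomial.eval_zero]
          simp [bq]
        apply hv 1
        rw [h6]
        simp [dc, dsc]
      refine (Polynomial.finite_setOfPred_isRoot h5).subset ?_
      intro t ht
      change (Pool.Agent.Q35.TT.pq (v 1)).eval t = 0
      rw [Pool.Agent.Q121.TT.pq_eval]
      exact ht
    have : Infinite K := CharZero.infinite K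
    obtain ⟨t, ht⟩ := hfin.exists_notMem
    exact ⟨fun _ => t, genusK (by decide : (0 : Fin 2) ≠ 1) (hv 0) ht⟩
  obtain ⟨l, hl, hlS, σl, y, δ, hδ, hns⟩ := nsq' K (G v) (deg_G v) hex (Set.finite_range p).toFinset
  have hlr : ∀ v, p v ≠ l := fun v h => hlS (by
    rw [Set.Finite.mem_toFinset]; exact ⟨v, h⟩)
  choose θ hθ hθl using fun u => Pool.Agent.U899.QA.lift_near (σ u) (G v) (hS0 u) (hS u) hε0
  obtain ⟨ηr, hηr, hηrl⟩ := Pool.Agent.U899.QA.lift_near τ (G v) hR0 hR hε0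
  let p' : Option ι → ℕ := fun v => v.elim l p
  haveI hp' : ∀ v, Fact (p' v).Prime := fun v => by
    rcases v with _ | v
    · exact hl
    · exact hp v
  have hinj' : Function.Injective p' := by
    rintro (_ | v) (_ | v') h
    · rfl
    · exact absurd h.symm (hlr v')
    · exact absurd h (hlr v)
    · exact congrArg some (hinj h)
  let s : ∀ v, K →+* ℚ_[p' v] := fun v => match v with
    | none => σl
    | some v => σ v
  let ηf : Option (Option ι) → ℝ := fun v => v.elim (min ηr ε) fun v =>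
    v.elim (min δ ε) fun v => min (θ v) ε
  have hηf : ∀ v, 0 < ηf v := by
    rintro (_ | _ | v)
    · exact lt_min hηr hε0
    · exact lt_min hδ hε0
    · exact lt_min (hθ v) hε0
  obtain ⟨v0, hv0⟩ := Finite.exists_min ηf
  have hz : ∀ j : Fin 2, ∃ x : K, x ∉ E (v j) ∧ ∀ v, ‖sv s τ v x - (match v with
      | none => R.1 j
      | some none => y j
      | some (some v) => (S v).1 j : Lv p' v)‖ < ηf v0 := fun j =>
    Pool.Agent.U899.QA.dn_avoid (dn_all hinj' s τ) none (fin_E (hv j)) _ (hηf v0)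
  choose z hzA hz using hz
  have hzl : ∀ j, ‖σl (z j) - y j‖ < δ := fun j =>
    (hz j (some none)).trans_le ((hv0 (some none)).trans (min_le_left _ _))
  have hzv : ∀ v j, ‖σ v (z j) - (S v).1 j‖ < min (θ v) ε := fun v j =>
    (hz j (some (some v))).trans_le (hv0 (some (some v)))
  have hzr : ∀ j, ‖τ (z j) - R.1 j‖ < min ηr ε := fun j =>
    (hz j none).trans_le (hv0 none)
  obtain ⟨L, iL, iN, iA, w, hfr, hw2, hext⟩ := Pool.Agent.U899.QA.exists_quad K (eval z (G v))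
    (hns z hzl)
  choose w' hw' hw'n using fun u => hθl u z fun j => (hzv u j).trans_le (min_le_left _ _)
  choose σ' hσ' hσw using fun v => hext ℚ_[p v] (σ v) (w' v) (hw' v)
  obtain ⟨wr, hwr, hwrn⟩ := hηrl z fun j => (hzr j).trans_le (min_le_left _ _)
  obtain ⟨τ', hτ', hτw⟩ := hext ℝ τ wr hwr
  -- the point over `L`
  have hc0 : eval z (G v) ≠ 0 := fun h0 => hns z hzl (by rw [h0]; exact ⟨0, by ring⟩)
  have hw0 : w ≠ 0 := by
    rintro rfl
    rw [zero_pow two_ne_zero] at hw2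
    exact hc0 ((map_eq_zero _).1 hw2.symm)
  set φ : K →+* L := algebraMap K L with hφ
  set vL : Fin 2 → Fin 5 → L := fun i k => φ (v i k) with hvL
  have hmap : map φ (G v) = G vL := map_G φ v
  have hvL' : ∀ i, Dc (vL i) := by
    intro i
    have h5 : dc (φ (v i 0)) (φ (v i 1)) (φ (v i 2)) (φ (v i 3)) (φ (v i 4)) =
        φ (dc (v i 0) (v i 1) (v i 2) (v i 3) (v i 4)) := by
      simp only [dc, dsc, map_sub, map_add, map_mul, map_pow, map_ofNat]
    change dc (φ (v i 0)) (φ (v i 1)) (φ (v i 2)) (φ (v i 3)) (φ (v i 4)) ≠ 0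
    rw [h5]
    exact (map_ne_zero φ).2 (hv i)
  have hon : w ^ 2 = eval (fun j => φ (z j)) (G vL) := by
    rw [hw2, ← hmap, eval_map]
    exact eval₂_comp_left φ (RingHom.id K) z (G v)
  have hPout : ((fun j => φ (z j), w) : (Fin 2 → L) × L) ∈ OutK (C (1 : L) * G vL) fun i => E (vL i) := by
    refine ⟨?_, hw0, ?_⟩
    · change w ^ 2 = eval (fun j => φ (z j)) (C (1 : L) * G vL)
      rw [C_1, one_mul]
      exact hon
    · rintro i ⟨N, hN, hT⟩
      exact hzA i ⟨N, hN, (Pool.Agent.Q13.TB.torT_map_iff φ (v i) (z i) N).1 hT⟩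
  obtain ⟨U, hU, hU'⟩ := nearK hinj τ' σ' hvL' (fun i => fin_E (hvL' i)) (fun i => le_rfl)
    one_ne_zero hPout
  have emap : map τ' (G vL) = map τ (G v) := by rw [← hmap, MvPolynomial.map_map, hτ']
  have emap' : ∀ u, map (σ' u) (G vL) = map (σ u) (G v) := fun u => by
    rw [← hmap, MvPolynomial.map_map, hσ' u]
  have hdR : dist R (image τ' (fun j => φ (z j), w)) < ε := by
    rw [dist_image τ' _ R hε0]
    refine ⟨fun j => ?_, ?_⟩
    · have h1 : τ' (φ (z j)) = τ (z j) := by rw [← hτ']; rfl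
      change ‖τ' (φ (z j)) - R.1 j‖ < ε
      rw [h1]
      exact (hzr j).trans_le (min_le_right _ _)
    · change ‖τ' w - R.2‖ < ε
      rw [hτw]
      exact hwrn
  have hPN : image τ' (fun j => φ (z j), w) ∈ N := by
    refine (hN4 _ ?_ (hdR.trans_le hεδ)).1
    change (τ' w) ^ 2 = eval (fun j => τ' (φ (z j))) (map τ (G v))
    rw [← emap, ← map_pow, hon, eval_map]
    exact eval₂_comp_left τ' (RingHom.id L) _ (G vL)
  refine ⟨L, iL, iN, iA, σ', τ', (fun j => φ (z j), w), U, hfr, hσ', hτ', ?_, fun u => ?_,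
    hdR.trans_le hεη, hU, fun M hM hMon hMsm hRM x hx y hy hyon => ?_⟩
  · change w ^ 2 = eval (fun j => φ (z j)) (map φ (G v))
    rw [hmap]
    exact hon
  · refine lt_of_lt_of_le ?_ hεη
    rw [dist_image (σ' u) _ (S u) hε0]
    refine ⟨fun j => ?_, ?_⟩
    · have h1 : σ' u (φ (z j)) = σ u (z j) := by rw [← hσ' u]; rfl
      change ‖σ' u (φ (z j)) - (S u).1 j‖ < ε
      rw [h1]
      exact (hzv u j).trans_le (min_le_right _ _)
    · change ‖σ' u w - (S u).2‖ < ε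
      rw [hσw]
      exact hw'n u
  · have hcon : IsPreconnected (M ∪ N) := IsPreconnected.union _ hRM hN3 hM hN1
    have h7 := hU' (M ∪ N) hcon (by
      rw [C_1, one_mul, emap]
      rintro T (hT | hT)
      · exact hMon T hT
      · exact hN2 T hT) (by
      rw [C_1, one_mul, emap]
      rintro T (hT | hT)
      · exact hMsm T hT
      · exact Or.inl (hN5 T hT)) (Or.inr hPN) x (Or.inl hx) y hy (by
      intro u
      rw [C_1, one_mul, emap' u]
      exact hyon u)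
    refine closure_mono ?_ h7
    rintro _ ⟨P, hP, rfl⟩
    have h8 := hP.1
    rw [C_1, one_mul, ← hmap] at h8
    exact ⟨P, h8, rfl⟩

end Pool.Agent.U199.ZS.Kum
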