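import Pool.Agent.U199.ZR.Q

/-!
# Multiples of the class of `P - ι P` which are close to zero at finitely many `p`-adic places
-/

set_option autoImplicit false
set_option linter.unusedSectionVars false
set_option linter.unusedVariables false

open WeierstrassCurve Filter Topology Pool.Agent.Y720.MZ

namespace Pool.Agent.U199.ZS

section lim

variable {K : Type*} [Field K] [CharZero K] {L : Type*} [NontriviallyNormedField L]

/-- limits at the origin -/
lemma quartic_limit' (σ : K →+* L) {w q₁ q₂ q₃ q₄ : K} (hw : w ≠ 0) {x y : ℕ → K}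
    (h : ∀ k, y k ^ 2 = x k ^ 3 + q₂ * x k ^ 2 + rb w q₁ q₃ q₄ * x k + rc w q₁ q₂ q₃ q₄)
    (hx : Tendsto (fun k => ‖σ (x k)‖) atTop atTop) {ε : ℝ} (hε : 0 < ε) :
    ∃ k, Df w q₁ q₃ (x k) (y k) ≠ 0 ∧ ‖σ (tf w q₁ q₂ q₃ (x k) (y k))‖ < ε ∧
      ‖σ (Yf w q₁ q₂ q₃ (x k) (y k) - w)‖ < ε := by
  have : CharZero L := charZero_of_injective_ringHom σ.injective
  have hw' : σ w ≠ 0 := (map_ne_zero σ).2 hw
  have hu : Tendsto (fun k => (σ (x k))⁻¹) atTop (𝓝 0) :=
    tendsto_inv₀_cobounded.comp (tendsto_norm_atTop_iff_cobounded.1 hx)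
  set u : ℕ → L := fun k => (σ (x k))⁻¹ with hudef
  have hx0 : ∀ᶠ k in atTop, x k ≠ 0 := by
    filter_upwards [hx.eventually_gt_atTop 0] with k hk h0
    rw [h0, map_zero, norm_zero] at hk
    exact lt_irrefl _ hk
  set B : L := σ (rb w q₁ q₃ q₄)
  set C : L := σ (rc w q₁ q₂ q₃ q₄)
  set g : ℕ → L := fun k => 1 + σ q₂ * u k + B * u k ^ 2 + C * u k ^ 3 with hgdef
  have hg : Tendsto g atTop (𝓝 1) := by
    have : Tendsto g atTop (𝓝 (1 + σ q₂ * 0 + B * 0 ^ 2 + C * 0 ^ 3)) :=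
      ((tendsto_const_nhds.add (hu.const_mul _)).add ((hu.pow 2).const_mul _)).add
        ((hu.pow 3).const_mul _)
    simpa using this
  have hgx : ∀ᶠ k in atTop, σ (y k) ^ 2 = g k * σ (x k) ^ 3 := by
    filter_upwards [hx0] with k hk
    have hk' : σ (x k) ≠ 0 := (map_ne_zero σ).2 hk
    have := congrArg σ (h k)
    simp only [map_add, map_mul, map_pow] at this
    rw [this, hgdef, hudef]
    simp only
    field_simp
    rfl
  have hg0 : ∀ᶠ k in atTop, g k ≠ 0 := hg.eventually_ne one_ne_zero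
  have hy0 : ∀ᶠ k in atTop, σ (y k) ≠ 0 := by
    filter_upwards [hx0, hgx, hg0] with k h1 h2 h3 h4
    rw [h4, zero_pow two_ne_zero] at h2
    exact mul_ne_zero h3 (pow_ne_zero 3 ((map_ne_zero σ).2 h1)) h2.symm
  set z : ℕ → L := fun k => σ (x k) / σ (y k) with hzdef
  have hz2 : ∀ᶠ k in atTop, z k ^ 2 = u k / g k := by
    filter_upwards [hx0, hgx, hg0, hy0] with k h1 h2 h3 h4
    have h1' : σ (x k) ≠ 0 := (map_ne_zero σ).2 h1
    rw [hzdef, hudef]
    simp only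
    rw [div_pow, h2]
    field_simp
  have hz : Tendsto z atTop (𝓝 0) := by
    have h1 : Tendsto (fun k => z k ^ 2) atTop (𝓝 0) := by
      have : Tendsto (fun k => u k / g k) atTop (𝓝 (0 / 1)) := hu.div hg one_ne_zero
      rw [zero_div] at this
      exact this.congr' (hz2.mono fun k hk => hk.symm)
    rw [tendsto_zero_iff_norm_tendsto_zero] at h1 ⊢
    have h2 : Tendsto (fun k => Real.sqrt (‖z k ^ 2‖)) atTop (𝓝 (Real.sqrt 0)) :=
      (Real.continuous_sqrt.tendsto _).comp h1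
    rw [Real.sqrt_zero] at h2
    refine h2.congr fun k => ?_
    rw [norm_pow, Real.sqrt_sq (norm_nonneg _)]
  set N : ℕ → L := fun k => 4 * σ w ^ 2 * (1 + σ q₂ * u k) - σ q₁ ^ 2 * u k with hN
  set D : ℕ → L := fun k => 2 * σ w - σ q₁ * z k - 2 * σ w ^ 2 * σ q₃ * (z k * u k) with hD
  have hNl : Tendsto N atTop (𝓝 (4 * σ w ^ 2)) := by
    have : Tendsto N atTop (𝓝 (4 * σ w ^ 2 * (1 + σ q₂ * 0) - σ q₁ ^ 2 * 0)) :=
      ((tendsto_const_nhds.add (hu.const_mul _)).const_mul _).sub (hu.const_mul _)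
    simpa using this
  have hDl : Tendsto D atTop (𝓝 (2 * σ w)) := by
    have : Tendsto D atTop (𝓝 (2 * σ w - σ q₁ * 0 - 2 * σ w ^ 2 * σ q₃ * (0 * 0))) :=
      (tendsto_const_nhds.sub (hz.const_mul _)).sub ((hz.mul hu).const_mul _)
    simpa using this
  have hN0 : (4 : L) * σ w ^ 2 ≠ 0 := mul_ne_zero (by norm_num) (pow_ne_zero 2 hw')
  have hD0 : (2 : L) * σ w ≠ 0 := mul_ne_zero two_ne_zero hw'
  set A : ℕ → L := fun k => N k / D k with hA
  have hAl : Tendsto A atTop (𝓝 (2 * σ w)) := by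
    have h1 : Tendsto A atTop (𝓝 (4 * σ w ^ 2 / (2 * σ w))) := hNl.div hDl hD0
    have h2 : 4 * σ w ^ 2 / (2 * σ w) = 2 * σ w := by field_simp; norm_num
    rwa [h2] at h1
  set t : ℕ → K := fun k => (4 * w ^ 2 * (x k + q₂) - q₁ ^ 2) /
    (2 * w * y k - q₁ * x k - 2 * w ^ 2 * q₃) with ht
  have hNk : ∀ᶠ k in atTop, σ (4 * w ^ 2 * (x k + q₂) - q₁ ^ 2) = N k * σ (x k) := by
    filter_upwards [hx0] with k h1
    have h1' : σ (x k) ≠ 0 := (map_ne_zero σ).2 h1
    rw [hN, hudef]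
    simp only [map_sub, map_mul, map_pow, map_add, map_ofNat]
    field_simp
  have hDk : ∀ᶠ k in atTop, σ (2 * w * y k - q₁ * x k - 2 * w ^ 2 * q₃) = D k * σ (y k) := by
    filter_upwards [hx0, hy0] with k h1 h2
    have h1' : σ (x k) ≠ 0 := (map_ne_zero σ).2 h1
    rw [hD, hudef, hzdef]
    simp only [map_sub, map_mul, map_pow, map_ofNat]
    field_simp
  have htk : ∀ᶠ k in atTop, σ (t k) = A k * z k := by
    filter_upwards [hNk, hDk] with k h1 h2
    rw [ht, hA, hzdef]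
    simp only
    rw [map_div₀, h1, h2]
    exact mul_div_mul_comm _ _ _ _
  have htl : Tendsto (fun k => σ (t k)) atTop (𝓝 0) := by
    have : Tendsto (fun k => A k * z k) atTop (𝓝 (2 * σ w * 0)) := hAl.mul hz
    rw [mul_zero] at this
    exact this.congr' (htk.mono fun k hk => hk.symm)
  have htx : Tendsto (fun k => σ (t k) ^ 2 * σ (x k)) atTop (𝓝 (4 * σ w ^ 2)) := by
    have h1 : Tendsto (fun k => A k ^ 2 / g k) atTop (𝓝 ((2 * σ w) ^ 2 / 1)) :=
      (hAl.pow 2).div hg one_ne_zero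
    have h2 : (2 * σ w) ^ 2 / 1 = 4 * σ w ^ 2 := by ring
    rw [h2] at h1
    refine h1.congr' ?_
    filter_upwards [htk, hz2, hx0] with k h1 h2 h3
    have h3' : σ (x k) ≠ 0 := (map_ne_zero σ).2 h3
    rw [h1, mul_pow, h2, hudef]
    simp only
    field_simp
  set Y : ℕ → K := fun k => -w + t k * (t k * x k - q₁) / (2 * w) with hY
  have hYl : Tendsto (fun k => σ (Y k - w)) atTop (𝓝 0) := by
    have h1 : Tendsto (fun k => -σ w + (σ (t k) ^ 2 * σ (x k) - σ q₁ * σ (t k)) / (2 * σ w) - σ w)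
        atTop (𝓝 (-σ w + (4 * σ w ^ 2 - σ q₁ * 0) / (2 * σ w) - σ w)) :=
      (tendsto_const_nhds.add ((htx.sub (htl.const_mul _)).div_const _)).sub_const _
    have h2 : -σ w + (4 * σ w ^ 2 - σ q₁ * 0) / (2 * σ w) - σ w = 0 := by
      field_simp
      ring
    rw [h2] at h1
    refine h1.congr fun k => ?_
    rw [hY]
    simp only [map_sub, map_add, map_neg, map_div₀, map_mul, map_ofNat]
    ring
  have hD1 : ∀ᶠ k in atTop, 2 * w * y k - q₁ * x k - 2 * w ^ 2 * q₃ ≠ 0 := by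
    filter_upwards [hDk, hDl.eventually_ne hD0, hy0] with k h1 h2 h3 h4
    rw [h4, map_zero] at h1
    exact mul_ne_zero h2 h3 h1.symm
  have ht0 : ∀ᶠ k in atTop, t k ≠ 0 := by
    filter_upwards [htk, hAl.eventually_ne hD0, hx0, hy0] with k h1 h2 h3 h4 h5
    rw [h5, map_zero] at h1
    exact mul_ne_zero h2 (div_ne_zero ((map_ne_zero σ).2 h3) h4) h1.symm
  have e1 : ∀ᶠ k in atTop, ‖σ (t k)‖ < ε := by
    have := htl.norm
    rw [norm_zero] at this
    exact this.eventually_lt_const hε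
  have e2 : ∀ᶠ k in atTop, ‖σ (Y k - w)‖ < ε := by
    have := hYl.norm
    rw [norm_zero] at this
    exact this.eventually_lt_const hε
  obtain ⟨k, k1, k3, k4⟩ := (hD1.and (e1.and e2)).exists
  exact ⟨k, k1, k3, k4⟩


/-- points with a large abscissa are close to `(0, w)` on the quartic -/
lemma near_inf (σ : K →+* L) {w q₁ q₂ q₃ q₄ : K} (hw : w ≠ 0) {ε : ℝ} (hε : 0 < ε) :
    ∃ R : ℝ, ∀ x y : K, y ^ 2 = x ^ 3 + q₂ * x ^ 2 + rb w q₁ q₃ q₄ * x + rc w q₁ q₂ q₃ q₄ →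
      R < ‖σ x‖ → ‖σ (tf w q₁ q₂ q₃ x y)‖ < ε ∧ ‖σ (Yf w q₁ q₂ q₃ x y - w)‖ < ε := by
  by_contra hcon
  push Not at hcon
  choose x y h1 h2 h3 using fun k : ℕ => hcon (k : ℝ)
  obtain ⟨k, -, k1, k2⟩ := quartic_limit' σ hw h1
    (tendsto_atTop_mono (fun k => (h2 k).le) tendsto_natCast_atTop_atTop) hε
  exact absurd (h3 k k1) (not_le.2 k2)

end lim

section mult

variable {K : Type*} [Field K] [CharZero K] [DecidableEq K] {a b c : K}

/-- the abscissas of the points near to the origin are large -/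
lemma large_of_nb {p : ℕ} [Fact p.Prime] (τ : K →+* ℚ_[p]) {C ρ : ℝ}
    (hB : Bd (av τ) a b c C ρ) {r : ℝ} (hr : 0 < r) (hrρ : r ≤ ρ) {x y : K}
    {h : (cv a b c).toAffine.Nonsingular x y} (hN : Nb (av τ) ρ r (.some x y h : Pt a b c)) :
    1 / (2 * r ^ 2) ≤ ‖τ x‖ := by
  rw [Nb_some] at hN
  obtain ⟨hy, h1, h2⟩ := hN
  have he := (cv_ns.1 h).1
  have h3 := s_small hB (h1.trans hrρ) h2 (show (1 / y : K) = (x / y) ^ 3 + a * (x / y) ^ 2 * (1 / y) +
    b * (x / y) * (1 / y) ^ 2 + c * (1 / y) ^ 3 by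
      field_simp
      linear_combination he)
  -- `x = (x / y) / (1 / y)`
  rw [av_apply, av_apply] at h3
  rw [av_apply] at h1
  have hx0 : ‖τ (x / y)‖ * ‖τ y‖ = ‖τ x‖ := by
    rw [← norm_mul, ← map_mul, div_mul_cancel₀ _ hy]
  have hy0 : 0 < ‖τ y‖ := norm_pos_iff.2 ((map_ne_zero τ).2 hy)
  have hy1 : ‖τ (1 / y)‖ = 1 / ‖τ y‖ := by
    rw [map_div₀, map_one, norm_div, norm_one]
  rw [hy1] at h3
  set z := ‖τ (x / y)‖ with hz
  have hz0 : 0 ≤ z := norm_nonneg _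
  have hzp : 0 < z := by
    rcases hz0.lt_or_eq with h4 | h4
    · exact h4
    · rw [← h4] at h3
      have : 0 < 1 / ‖τ y‖ := by positivity
      have h5 : (2 : ℝ) * 0 ^ 3 = 0 := by norm_num
      rw [h5] at h3
      linarith
  have h4 : 1 ≤ 2 * z ^ 3 * ‖τ y‖ := by
    rw [div_le_iff₀ hy0] at h3
    exact h3
  rw [← hx0, div_le_iff₀ (by positivity)]
  have h5 : z ^ 2 ≤ r ^ 2 := pow_le_pow_left₀ hz0 h1 2
  nlinarith [mul_nonneg hzp.le hy0.le, mul_pos hzp hy0]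

/-- all the multiples of a multiple are close to the origin at the given places -/
theorem pad_all {ι : Type} [Finite ι] {p : ι → ℕ} [∀ i, Fact (p i).Prime] (τ : ∀ i, K →+* ℚ_[p i])
    (hD : dsc a b c ≠ 0) {P : Pt a b c} (hP : ∀ n : ℕ, n ≠ 0 → n • P ≠ 0) (R : ι → ℝ) :
    ∃ N : ℕ, N ≠ 0 ∧ ∀ (n : ℤ) (x y : K) (h : (cv a b c).toAffine.Nonsingular x y),
      n • (N • P) = .some x y h → ∀ i, R i < ‖τ i x‖ := by
  classical
  have : Fintype ι := Fintype.ofFinite ι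
  -- bounds
  set Cc : ι → ℝ := fun i => 1 + ‖τ i a‖ + ‖τ i b‖ + ‖τ i c‖ with hCc
  have hBd : ∀ i, Bd (av (τ i)) a b c (Cc i) (1 / (100 * Cc i)) := by
    intro i
    have a1 := norm_nonneg (τ i a)
    have a2 := norm_nonneg (τ i b)
    have a3 := norm_nonneg (τ i c)
    have h1 : 1 ≤ Cc i := by simp only [hCc]; linarith
    refine ⟨h1, ?_, ?_, ?_, by positivity, ?_⟩
    · rw [av_apply]; simp only [hCc]; linarith
    · rw [av_apply]; simp only [hCc]; linarith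
    · rw [av_apply]; simp only [hCc]; linarith
    · have : 100 * Cc i * (1 / (100 * Cc i)) = 1 := by
        have : Cc i ≠ 0 := by linarith
        field_simp
      rw [this]
  set r : ι → ℝ := fun i => min (1 / (100 * Cc i)) (1 / (2 * (1 + |R i|))) with hr
  have hC0 : ∀ i, 0 < Cc i := fun i => lt_of_lt_of_le one_pos (hBd i).hC
  have hr0 : ∀ i, 0 < r i := fun i => lt_min (hBd i).hρ (by positivity)
  have hrρ : ∀ i, r i ≤ 1 / (100 * Cc i) := fun i => min_le_left _ _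
  have h1 : ∀ s : Finset ι, ∃ N : ℕ, N ≠ 0 ∧ ∀ i ∈ s,
      Nb (av (τ i)) (1 / (100 * Cc i)) (r i) (N • P) := by
    intro s
    induction s using Finset.induction_on with
    | empty => exact ⟨1, one_ne_zero, by simp⟩
    | insert i s hi ih =>
      obtain ⟨N, hN, hNs⟩ := ih
      obtain ⟨m, hm, hmN⟩ := accum_near (τ i) hD (hBd i)
        (P := N • P) (fun n hn => by
          rw [← mul_smul]; exact hP _ (mul_ne_zero hn hN)) (hr0 i)
      refine ⟨m * N, mul_ne_zero hm hN, fun j hj => ?_⟩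
      rw [mul_smul]
      rcases Finset.mem_insert.1 hj with rfl | hj
      · exact hmN
      · exact U2 (hBd j) (hrρ j) (hNs j hj) m
  obtain ⟨N, hN, hNs⟩ := h1 Finset.univ
  refine ⟨N, hN, fun n x y h hn i => ?_⟩
  have h2 := U2z (hBd i) (hrρ i) (hNs i (Finset.mem_univ i)) n
  rw [hn] at h2
  have h3 := large_of_nb (τ i) (hBd i) (hr0 i) (hrρ i) h2
  refine lt_of_lt_of_le ?_ h3
  have h4 : r i ≤ 1 / (2 * (1 + |R i|)) := min_le_right _ _
  have h5 := le_abs_self (R i)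
  have h6 := abs_nonneg (R i)
  rw [lt_div_iff₀ (by have := hr0 i; positivity)]
  have h7 : r i ^ 2 ≤ (1 / (2 * (1 + |R i|))) ^ 2 := pow_le_pow_left₀ (hr0 i).le h4 2
  have h8 : (1 / (2 * (1 + |R i|))) ^ 2 ≤ 1 / (4 * (1 + |R i|)) := by
    rw [div_pow, one_pow, div_le_div_iff₀ (by positivity) (by positivity)]
    nlinarith
  have h9 : (1 + |R i|) * (1 / (4 * (1 + |R i|))) = 1 / 4 := by
    have : 1 + |R i| ≠ 0 := by positivity
    field_simp
  have h10 : 0 ≤ r i ^ 2 := sq_nonneg _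
  calc R i * (2 * r i ^ 2) ≤ (1 + |R i|) * (2 * r i ^ 2) := by nlinarith
    _ ≤ (1 + |R i|) * (2 * (1 / (4 * (1 + |R i|)))) := by
        have := h7.trans h8
        gcongr
    _ = 1 / 2 := by linear_combination 2 * h9
    _ < 1 := by norm_num

end mult

end Pool.Agent.U199.ZS
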